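import Pool.Agent.LibHP.SDefs

/-! # Row T2a: functions on the base are regular at horizontal points

Plan. `ηV := genericPoint V`, `ηV ⤳ v` (`genericPoint_specializes`). The germ `b1` of `b` at
`g v` : if it is not a unit of `T.presheaf.stalk (g v)`, which is a field because `g v = genericPoint T`
(`hv`; `T` is integral: the stalk at the generic point is `T.functionField`, a field: rewrite with `hv`, or
use `IsField` of the stalk and `hv ▸`), then `b1 = 0`, so its image in `V.presheaf.stalk v` and in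
`V.functionField` is `0`, against `hb`. So `b1` is a unit; `c := (stalk map of g at v) (a1 * b1⁻¹)`, `a1`
the germ of `a` at `g v`. Compute: `algebraMap (V.presheaf.stalk v) V.functionField` is
`stalkSpecializes` for `ηV ⤳ v` (see its use in LibHPF/G12.lean, LibHPF/P12.lean, LibHP/S4.lean), and
`germ` followed by the stalk map of `g` at `v` is `g.appLE` followed by the germ at `v`
(`Scheme.Hom.germ_stalkMap`, `Scheme.Hom.appLE`), and `germ` at `v` followed by `stalkSpecializes` is
the germ at `ηV` (`TopCat.Presheaf.germ_stalkSpecializes`). Note that `v` need not be in `V0`: first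
shrink or use `T0` directly: `v ∈ g ⁻¹ᵁ T0` because `g v = genericPoint T ∈ T0`; work with
`V1 := g ⁻¹ᵁ T0 ⊇ V0`, `g.app T0`, and compare the germs at `ηV` (`germ_res`). -/

set_option autoImplicit false
open AlgebraicGeometry CategoryTheory

namespace Pool.Agent.LibHP

private theorem key_T2a {V T : Scheme.{0}} [IsIntegral V] (g : V ⟶ T) (v : V)
    (T0 : T.Opens) (hv0 : g.base v ∈ T0) (V0 : V.Opens)
    (hV0 : genericPoint V ∈ V0) (hle : V0 ≤ g ⁻¹ᵁ T0) (x : Γ(T, T0)) :
    algebraMap (V.presheaf.stalk v) V.functionField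
      ((g.stalkMap v).hom (T.presheaf.germ T0 (g.base v) hv0 x)) =
      V.presheaf.germ V0 (genericPoint V) hV0 ((g.appLE T0 V0 hle).hom x) := by
  have hsp : genericPoint V ⤳ v := genericPoint_specializes v
  have h1 : (T.presheaf.germ T0 (g.base v) hv0 ≫ g.stalkMap v) ≫
      V.presheaf.stalkSpecializes hsp =
      g.appLE T0 V0 hle ≫ V.presheaf.germ V0 (genericPoint V) hV0 := by
    have hv1 : v ∈ g ⁻¹ᵁ T0 := hv0
    have e1 : T.presheaf.germ T0 (g.base v) hv0 ≫ g.stalkMap v =
        g.app T0 ≫ V.presheaf.germ (g ⁻¹ᵁ T0) v hv1 := Scheme.Hom.germ_stalkMap g T0 v hv1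
    have e2 : V.presheaf.germ (g ⁻¹ᵁ T0) v hv1 ≫ V.presheaf.stalkSpecializes hsp =
        V.presheaf.germ (g ⁻¹ᵁ T0) (genericPoint V) (hle hV0) :=
      TopCat.Presheaf.germ_stalkSpecializes V.presheaf hv1 hsp
    have e3 : g.appLE T0 V0 hle ≫ V.presheaf.germ V0 (genericPoint V) hV0 =
        g.app T0 ≫ V.presheaf.germ (g ⁻¹ᵁ T0) (genericPoint V) (hle hV0) := by
      rw [Scheme.Hom.appLE, Category.assoc, TopCat.Presheaf.germ_res]
    rw [e1, e3, Category.assoc, e2]
  exact congrArg (fun φ => φ.hom x) h1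

theorem W_T2a {V T : Scheme.{0}} [IsIntegral V] [IsIntegral T] (g : V ⟶ T) (v : V)
    (hv : g.base v = genericPoint T) (T0 : T.Opens) (hT0 : genericPoint T ∈ T0) (V0 : V.Opens)
    (hV0 : genericPoint V ∈ V0) (hle : V0 ≤ g ⁻¹ᵁ T0) (a b : Γ(T, T0))
    (hb : V.presheaf.germ V0 (genericPoint V) hV0 ((g.appLE T0 V0 hle).hom b) ≠ 0) :
    ∃ c : V.presheaf.stalk v, algebraMap (V.presheaf.stalk v) V.functionField c *
      V.presheaf.germ V0 (genericPoint V) hV0 ((g.appLE T0 V0 hle).hom b) =
        V.presheaf.germ V0 (genericPoint V) hV0 ((g.appLE T0 V0 hle).hom a) := by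
  have hv0 : g.base v ∈ T0 := by rw [hv]; exact hT0
  have hfield : IsField (T.presheaf.stalk (g.base v)) := by
    rw [hv]
    exact Field.toIsField T.functionField
  set a1 : T.presheaf.stalk (g.base v) := T.presheaf.germ T0 (g.base v) hv0 a with ha1
  set b1 : T.presheaf.stalk (g.base v) := T.presheaf.germ T0 (g.base v) hv0 b with hb1
  have hka := key_T2a g v T0 hv0 V0 hV0 hle a
  have hkb := key_T2a g v T0 hv0 V0 hV0 hle b
  rw [← ha1] at hka
  rw [← hb1] at hkb
  have hb0 : b1 ≠ 0 := by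
    intro h
    apply hb
    rw [← hkb, h, map_zero, map_zero]
  obtain ⟨i, hi⟩ := hfield.mul_inv_cancel hb0
  refine ⟨(g.stalkMap v).hom (a1 * i), ?_⟩
  rw [← hka, ← hkb, ← map_mul, ← map_mul]
  congr 2
  calc a1 * i * b1 = a1 * (b1 * i) := by ring
    _ = a1 := by rw [hi, mul_one]

end Pool.Agent.LibHP
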