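import Pool.Agent.LibHP.S4

/-! # Row T2b: the coordinate ring of an affine open subset as a subalgebra of the function field

SHORT/MEDIUM. Plan. `V0` is nonempty, `germ : Γ(V, V0) → V.functionField` is injective
(`germToFunctionField_injective`) and `V.functionField` is a fraction ring of `Γ(V, V0)`
(`functionField_isFractionRing_of_isAffineOpen`, as in LibHPF/G12.lean or LibHP/S4.lean). With
`Algebra k Γ(V, V0) := (kapU h V0).toAlgebra` the map `e ∘ germ` is a `k`-algebra homomorphism
(`germ_kapU`, `hk`); `A` := its range (`AlgHom.range`), `β := AlgEquiv.ofInjective`. Finite generation: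
`kapU_finiteType` (LibHP/S4.lean) and `Subalgebra.FG.map`/`AlgHom.range` of a finite type algebra. -/

set_option autoImplicit false
open AlgebraicGeometry CategoryTheory

namespace Pool.Agent.LibHP

theorem W_T2b {k : Type} [Field k] {V : Scheme.{0}} [IsIntegral V]
    (h : V ⟶ Spec (CommRingCat.of k)) [LocallyOfFiniteType h] (V0 : V.Opens)
    (hV0 : IsAffineOpen V0) (hη : genericPoint V ∈ V0) (K : Type) [Field K] [Algebra k K]
    (e : V.functionField →+* K) (he : Function.Bijective e)
    (hk : ∀ c : k, algebraMap k K c = e (toStalk h (genericPoint V) c)) :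
    ∃ (A : Subalgebra k K) (β : Γ(V, V0) ≃+* A), A.FG ∧
      (∀ b, (β b : K) = e (V.presheaf.germ V0 (genericPoint V) hη b)) ∧
      (∀ c : k, β (kapU h V0 c) = algebraMap k A c) ∧
      ∀ c : K, ∃ u w : K, u ∈ A ∧ w ∈ A ∧ w ≠ 0 ∧ c * w = u := by
  have hne : Nonempty V0 := ⟨⟨_, hη⟩⟩
  let algV : Algebra k Γ(V, V0) := (kapU h V0).toAlgebra
  let ι : Γ(V, V0) →ₐ[k] K :=
    { toRingHom := e.comp (V.presheaf.germ V0 (genericPoint V) hη).hom
      commutes' := fun c => by
        rw [hk c]
        exact congrArg e (germ_kapU h V0 (genericPoint V) hη c) }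
  have hfrac : IsFractionRing Γ(V, V0) V.functionField :=
    functionField_isFractionRing_of_isAffineOpen V V0 hV0
  have hinj0 : Function.Injective (V.presheaf.germ V0 (genericPoint V) hη) :=
    Scheme.germToFunctionField_injective V V0
  have hinj : Function.Injective ι := fun x y hxy => hinj0 (he.1 hxy)
  have hft : Algebra.FiniteType k Γ(V, V0) := kapU_finiteType h V0 hV0
  have hA : ι.range.FG := by
    rw [← Algebra.map_top]
    exact hft.out.map ι
  let ee : Γ(V, V0) ≃ₐ[k] ι.range := AlgEquiv.ofInjective ι hinj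
  refine ⟨ι.range, ee.toRingEquiv, hA, fun b => rfl, fun c => ee.commutes c, fun c => ?_⟩
  obtain ⟨c', rfl⟩ := he.2 c
  obtain ⟨a, b, hb, hab⟩ := IsFractionRing.div_surjective (A := Γ(V, V0)) c'
  have hb0 : b ≠ 0 := nonZeroDivisors.ne_zero hb
  have h1 : algebraMap Γ(V, V0) V.functionField b =
      V.presheaf.germ V0 (genericPoint V) hη b := rfl
  have h2 : algebraMap Γ(V, V0) V.functionField a =
      V.presheaf.germ V0 (genericPoint V) hη a := rfl
  have h3 : algebraMap Γ(V, V0) V.functionField b ≠ 0 := by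
    intro h0
    apply hb0
    apply hinj0
    rw [map_zero]
    exact h0
  refine ⟨ι a, ι b, ⟨a, rfl⟩, ⟨b, rfl⟩, ?_, ?_⟩
  · intro h0
    apply hb0
    apply hinj
    rw [h0, map_zero]
  · change e c' * e (V.presheaf.germ V0 (genericPoint V) hη b) =
      e (V.presheaf.germ V0 (genericPoint V) hη a)
    rw [← map_mul, ← h1, ← h2, ← hab, div_mul_cancel₀ _ h3]

end Pool.Agent.LibHP
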