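import Pool.Agent.LibHP.S4

/-! # Row T2e: the rational point given by a homomorphism

SHORT/MEDIUM. Plan. `s ≫ h`: `hV0.fromSpec ≫ h = Spec.map (kapU h V0)` (`IsAffineOpen.fromSpec_toSpec..`,
`IsAffineOpen.SpecMap_appLE_fromSpec` for the affine open `⊤` of `Spec k`, as in the proof of
`exists_hom_of_section`, LibK3G/CV4.lean, read in the other direction), then functoriality of `Spec.map` and
`hφ`. Range: `IsAffineOpen.range_fromSpec`. Surjectivity: `(g.appLE T0 V0 hle) (kapU t T0 c) = kapU h V0 c`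
(`Scheme.Hom.appLE_comp_appLE`, `hg`), so `c` is the image of `kapU t T0 c`. -/

set_option autoImplicit false
open AlgebraicGeometry CategoryTheory

namespace Pool.Agent.LibHP

theorem W_T2e {k : Type} [Field k] {V : Scheme.{0}} (h : V ⟶ Spec (CommRingCat.of k))
    (V0 : V.Opens) (hV0 : IsAffineOpen V0) (φ : Γ(V, V0) ⟶ CommRingCat.of k)
    (hφ : ∀ c : k, φ.hom (kapU h V0 c) = c) :
    (Spec.map φ ≫ hV0.fromSpec) ≫ h = 𝟙 _ ∧
      Set.range (Spec.map φ ≫ hV0.fromSpec).base ⊆ V0 := by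
  constructor
  · have h1 := IsAffineOpen.SpecMap_appLE_fromSpec h (isAffineOpen_top _) hV0
      (le_preimage_top' h V0)
    rw [IsAffineOpen.fromSpec_top, Scheme.isoSpec_Spec_inv, ← Spec.map_comp] at h1
    rw [Category.assoc, ← h1, ← Spec.map_comp]
    have h2 : ((Scheme.ΓSpecIso (CommRingCat.of k)).inv ≫ h.appLE ⊤ V0 (le_preimage_top' h V0)) ≫
        φ = 𝟙 _ := by
      ext c
      exact hφ c
    rw [h2, Spec.map_id]
  · rintro _ ⟨x, rfl⟩
    have h1 : (Spec.map φ ≫ hV0.fromSpec).base x ∈ Set.range hV0.fromSpec.base :=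
      ⟨(Spec.map φ).base x, rfl⟩
    rwa [hV0.range_fromSpec] at h1

theorem W_T2f {k : Type} [Field k] {V T : Scheme.{0}} (h : V ⟶ Spec (CommRingCat.of k))
    (t : T ⟶ Spec (CommRingCat.of k)) (g : V ⟶ T) (hg : g ≫ t = h) (T0 : T.Opens)
    (V0 : V.Opens) (hle : V0 ≤ g ⁻¹ᵁ T0) (c : k) :
    (g.appLE T0 V0 hle).hom (kapU t T0 c) = kapU h V0 c := by
  subst hg
  have h1 : ((Scheme.ΓSpecIso (CommRingCat.of k)).inv ≫ t.appLE ⊤ T0 (le_preimage_top' t T0)) ≫
      g.appLE T0 V0 hle = (Scheme.ΓSpecIso (CommRingCat.of k)).inv ≫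
      (g ≫ t).appLE ⊤ V0 (le_preimage_top' (g ≫ t) V0) := by
    rw [Category.assoc, Scheme.Hom.appLE_comp_appLE]
  exact congrArg (fun q => q.hom c) h1

end Pool.Agent.LibHP
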