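import Pool.Agent.LibW64T.Defs

/-! # Row U2: the fibre in terms of the presentation

Compare row F4 of board W64 (LibW64/F4.lean). `ψ : A → κ` has kernel `fibreIdeal A A0 φ`
(e.g. `κ` = the field of fractions of `A ⧸ fibreIdeal A A0 φ`).

Plan. `ι := (Subalgebra.inclusion hM.le : A0 →+* A)`, `φ0 := (φ : A →+* k).comp ι`, `ev := evYW ι y w`,
`ev' := evYW (algebraMap k κ) (ψ ∘ y) (ψ w)`.
(a) `ψ (ι a) = algebraMap k κ (φ (ι a))` for `a : A0`: `ι a - algebraMap k A (φ (ι a))` is in `A0` and killed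
by `φ`, so it is in `fibreIdeal` (`Ideal.subset_span`). Hence the second statement:
`ψ (ev p) = ev' (mapYW r φ0 p)` (both sides are ring homomorphisms in `p`; `Polynomial.ringHom_ext'`,
`MvPolynomial.ringHom_ext`).
(b) First statement: let `p : (MvPolynomial (Fin r) k)[X]`, `p.natDegree < m.natDegree`, `ev' p = 0`. Let
`P := mapYW r (algebraMap k A0) p`; `mapYW r φ0 P = p` and `P.natDegree ≤ p.natDegree`. `ψ (ev P) = 0`, so
`ev P ∈ fibreIdeal`: `ev P = ∑ μ_j b_j` (finite sum, `μ_j ∈ A0` killed by `φ`, `b_j ∈ A`;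
`Submodule.mem_span_set'`). There is `n` with `b_j * ev (C c) ^ n = ev q_j` for all `j` (take the maximum
of the `n_j`), and `q_j` may be replaced by `q_j %ₘ m` (`hmw`), of degree `< m.natDegree` (`m ≠ 1`). So
`ev (C c ^ n * P - ∑ C (C μ_j) * q_j) = 0`, of degree `< m.natDegree`, so it is zero by `hind`. Apply
`mapYW r φ0`: `C (c^φ) ^ n * p = 0` in `(MvPolynomial (Fin r) k)[X]`, a domain, and `c^φ ≠ 0` because its
value at `φ ∘ y` is `φ (ev (C c)) ≠ 0`. So `p = 0`. -/

set_option autoImplicit false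
open Polynomial

namespace Pool.Agent.LibHP

/-- Evaluation and a ring homomorphism. -/
private theorem W_U2_hom {R F B B' : Type} [CommRing R] [CommRing F] [CommRing B] [CommRing B']
    {r : ℕ} (j : R →+* B) (j' : F →+* B') (θ : B →+* B') (φ0 : R →+* F)
    (h : ∀ a : R, θ (j a) = j' (φ0 a)) (y : Fin r → B) (w : B)
    (p : (MvPolynomial (Fin r) R)[X]) :
    θ (evYW j y w p) = evYW j' (fun i => θ (y i)) (θ w) (mapYW r φ0 p) := by
  have h1 : θ.comp (MvPolynomial.eval₂Hom j y) =
      (MvPolynomial.eval₂Hom j' (fun i => θ (y i))).comp (MvPolynomial.map φ0) := by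
    apply MvPolynomial.ringHom_ext
    · intro a
      simp only [RingHom.comp_apply, MvPolynomial.coe_eval₂Hom, MvPolynomial.eval₂_C,
        MvPolynomial.map_C, h]
    · intro i
      simp only [RingHom.comp_apply, MvPolynomial.coe_eval₂Hom, MvPolynomial.eval₂_X,
        MvPolynomial.map_X]
  unfold evYW mapYW
  simp only [Polynomial.coe_eval₂RingHom, Polynomial.coe_mapRingHom, Polynomial.eval₂_map]
  rw [Polynomial.hom_eval₂, h1]

theorem W_U2 {k K κ : Type} [Field k] [Field K] [CharZero K] [Algebra k K] [Field κ]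
    [Algebra k κ] (L : Subfield K) (A A0 : Subalgebra k K) (hM : IsModel L A A0)
    (r : ℕ) (y : Fin r → A) (w : A) (m : (MvPolynomial (Fin r) A0)[X])
    (c : MvPolynomial (Fin r) A0) (hm : m.Monic)
    (hmw : evYW (Subalgebra.inclusion hM.le : A0 →+* A) y w m = 0)
    (hind : ∀ p : (MvPolynomial (Fin r) A0)[X], p.natDegree < m.natDegree →
      evYW (Subalgebra.inclusion hM.le : A0 →+* A) y w p = 0 → p = 0)
    (hb : ∀ b : A, ∃ (n : ℕ) (p : (MvPolynomial (Fin r) A0)[X]),
      b * evYW (Subalgebra.inclusion hM.le : A0 →+* A) y w (C c) ^ n =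
        evYW (Subalgebra.inclusion hM.le : A0 →+* A) y w p)
    (φ : A →ₐ[k] k) (ψ : A →ₐ[k] κ) (hψ : ∀ b : A, ψ b = 0 ↔ b ∈ fibreIdeal A A0 φ)
    (hc : φ (evYW (Subalgebra.inclusion hM.le : A0 →+* A) y w (C c)) ≠ 0) :
    (∀ p : (MvPolynomial (Fin r) k)[X], p.natDegree < m.natDegree →
      evYW (algebraMap k κ) (fun i => ψ (y i)) (ψ w) p = 0 → p = 0) ∧
    ∀ p : (MvPolynomial (Fin r) A0)[X],
      ψ (evYW (Subalgebra.inclusion hM.le : A0 →+* A) y w p) =
        evYW (algebraMap k κ) (fun i => ψ (y i)) (ψ w)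
          (mapYW r ((φ : A →+* k).comp (Subalgebra.inclusion hM.le : A0 →+* A)) p) := by
  -- the constants
  have ha : ∀ a : A0, ψ ((Subalgebra.inclusion hM.le : A0 →+* A) a) =
      algebraMap k κ (φ ((Subalgebra.inclusion hM.le : A0 →+* A) a)) := by
    intro a
    have h1 : (Subalgebra.inclusion hM.le : A0 →+* A) a -
        algebraMap k A (φ ((Subalgebra.inclusion hM.le : A0 →+* A) a)) ∈ fibreIdeal A A0 φ := by
      apply Ideal.subset_span
      refine ⟨?_, ?_⟩
      · exact A0.sub_mem a.2 (A0.algebraMap_mem _)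
      · rw [map_sub, AlgHom.commutes]
        exact sub_self _
    have h2 := (hψ _).2 h1
    rw [map_sub, AlgHom.commutes, sub_eq_zero] at h2
    exact h2
  -- the second statement
  have hsec : ∀ p : (MvPolynomial (Fin r) A0)[X],
      ψ (evYW (Subalgebra.inclusion hM.le : A0 →+* A) y w p) =
        evYW (algebraMap k κ) (fun i => ψ (y i)) (ψ w)
          (mapYW r ((φ : A →+* k).comp (Subalgebra.inclusion hM.le : A0 →+* A)) p) := fun p =>
    W_U2_hom (Subalgebra.inclusion hM.le : A0 →+* A) (algebraMap k κ) (ψ : A →+* κ)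
      ((φ : A →+* k).comp (Subalgebra.inclusion hM.le : A0 →+* A)) ha y w p
  refine ⟨?_, hsec⟩
  -- `m` is not constant
  have hm1 : m ≠ 1 := by
    intro h
    rw [h, map_one] at hmw
    exact one_ne_zero hmw
  have hmd : 0 < m.natDegree := by
    rcases Nat.eq_zero_or_pos m.natDegree with h | h
    · exact absurd (hm.natDegree_eq_zero.1 h) hm1
    · exact h
  -- evaluation of the reduction modulo `m`
  have hmod : ∀ q : (MvPolynomial (Fin r) A0)[X],
      evYW (Subalgebra.inclusion hM.le : A0 →+* A) y w (q %ₘ m) =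
        evYW (Subalgebra.inclusion hM.le : A0 →+* A) y w q := by
    intro q
    have h1 : q %ₘ m + m * (q /ₘ m) = q := Polynomial.modByMonic_add_div q m
    have h2 := congrArg (evYW (Subalgebra.inclusion hM.le : A0 →+* A) y w) h1
    rw [map_add, map_mul, hmw, zero_mul, add_zero] at h2
    exact h2
  -- the elements of the ideal
  have hI : ∀ b : A, b ∈ fibreIdeal A A0 φ → ∃ (n : ℕ) (Q : (MvPolynomial (Fin r) A0)[X]),
      b * evYW (Subalgebra.inclusion hM.le : A0 →+* A) y w (C c) ^ n =
        evYW (Subalgebra.inclusion hM.le : A0 →+* A) y w Q ∧ Q.natDegree < m.natDegree ∧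
      mapYW r ((φ : A →+* k).comp (Subalgebra.inclusion hM.le : A0 →+* A)) Q = 0 := by
    intro b hbI
    unfold fibreIdeal at hbI
    refine Submodule.span_induction ?_ ?_ ?_ ?_ hbI
    · rintro x ⟨hx0, hx⟩
      refine ⟨0, C (MvPolynomial.C ⟨(x : K), hx0⟩), ?_, ?_, ?_⟩
      · rw [pow_zero, mul_one]
        unfold evYW
        rw [Polynomial.coe_eval₂RingHom, Polynomial.eval₂_C, MvPolynomial.coe_eval₂Hom,
          MvPolynomial.eval₂_C]
        rfl
      · rw [natDegree_C]
        exact hmd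
      · unfold mapYW
        rw [Polynomial.coe_mapRingHom, Polynomial.map_C, MvPolynomial.map_C]
        have h1 : ((φ : A →+* k).comp (Subalgebra.inclusion hM.le : A0 →+* A))
            ⟨(x : K), hx0⟩ = 0 := hx
        rw [h1, map_zero, map_zero]
    · exact ⟨0, 0, by simp, by simpa using hmd, by simp⟩
    · rintro b1 b2 _ _ ⟨n1, Q1, e1, d1, z1⟩ ⟨n2, Q2, e2, d2, z2⟩
      refine ⟨n1 + n2, C (c ^ n2) * Q1 + C (c ^ n1) * Q2, ?_, ?_, ?_⟩
      · rw [map_add, map_mul, map_mul, ← e1, ← e2, map_pow, map_pow, map_pow, map_pow]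
        ring
      · refine (natDegree_add_le _ _).trans_lt (max_lt ?_ ?_)
        · exact (natDegree_C_mul_le _ _).trans_lt d1
        · exact (natDegree_C_mul_le _ _).trans_lt d2
      · rw [map_add, map_mul, map_mul, z1, z2, mul_zero, mul_zero, add_zero]
    · rintro a b1 _ ⟨n1, Q1, e1, d1, z1⟩
      obtain ⟨n2, q, e2⟩ := hb a
      refine ⟨n1 + n2, (q * Q1) %ₘ m, ?_, ?_, ?_⟩
      · rw [hmod, map_mul, ← e1, ← e2, smul_eq_mul]
        ring
      · exact natDegree_modByMonic_lt _ hm hm1
      · have h1 : mapYW r ((φ : A →+* k).comp (Subalgebra.inclusion hM.le : A0 →+* A))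
            (q * Q1) = 0 := by rw [map_mul, z1, mul_zero]
        unfold mapYW at h1 ⊢
        rw [Polynomial.coe_mapRingHom] at h1 ⊢
        rw [Polynomial.map_modByMonic _ hm, h1, Polynomial.zero_modByMonic]
  -- the first statement
  intro p hp hp0
  set φ0 : A0 →+* k := (φ : A →+* k).comp (Subalgebra.inclusion hM.le : A0 →+* A) with hφ0
  have hid : φ0.comp (algebraMap k A0) = RingHom.id k := by
    ext a
    exact φ.commutes a
  have hPp : mapYW r φ0 (mapYW r (algebraMap k A0) p) = p := by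
    unfold mapYW
    rw [Polynomial.coe_mapRingHom, Polynomial.coe_mapRingHom, Polynomial.map_map]
    have h1 : (MvPolynomial.map φ0).comp (MvPolynomial.map (algebraMap k A0)) =
        RingHom.id (MvPolynomial (Fin r) k) := by
      apply MvPolynomial.ringHom_ext
      · intro a
        rw [RingHom.comp_apply, MvPolynomial.map_C, MvPolynomial.map_C, RingHom.id_apply]
        exact congrArg MvPolynomial.C (RingHom.congr_fun hid a)
      · intro i
        rw [RingHom.comp_apply, MvPolynomial.map_X, MvPolynomial.map_X, RingHom.id_apply]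
    rw [h1, Polynomial.map_id]
  have hPd : (mapYW r (algebraMap k A0) p).natDegree < m.natDegree := by
    refine lt_of_le_of_lt ?_ hp
    unfold mapYW
    rw [Polynomial.coe_mapRingHom]
    exact natDegree_map_le
  have h0 : ψ (evYW (Subalgebra.inclusion hM.le : A0 →+* A) y w
      (mapYW r (algebraMap k A0) p)) = 0 := by
    rw [hsec, hPp, hp0]
  obtain ⟨n, Q, e1, d1, z1⟩ := hI _ ((hψ _).1 h0)
  have h2 : C (c ^ n) * mapYW r (algebraMap k A0) p - Q = 0 := by
    apply hind
    · refine (natDegree_sub_le _ _).trans_lt (max_lt ?_ d1)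
      exact (natDegree_C_mul_le _ _).trans_lt hPd
    · rw [map_sub, map_mul, ← e1, map_pow, map_pow]
      ring
  have h3 := congrArg (mapYW r φ0) h2
  rw [map_sub, map_mul, z1, hPp, sub_zero, map_zero] at h3
  rcases mul_eq_zero.1 h3 with h4 | h4
  · exfalso
    have h5 : MvPolynomial.map φ0 c = 0 := by
      unfold mapYW at h4
      rw [Polynomial.coe_mapRingHom, Polynomial.map_C, map_pow, C_eq_zero] at h4
      exact eq_zero_of_pow_eq_zero h4
    apply hc
    have h6 := W_U2_hom (Subalgebra.inclusion hM.le : A0 →+* A) (RingHom.id k) (φ : A →+* k) φ0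
      (fun _ => rfl) y w (C c)
    have h7 : mapYW r φ0 (C c) = 0 := by
      unfold mapYW
      rw [Polynomial.coe_mapRingHom, Polynomial.map_C, h5, map_zero]
    rw [h7, map_zero] at h6
    exact h6
  · exact h4

end Pool.Agent.LibHP
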