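import Pool.Agent.LibW64T.U1
import Pool.Agent.LibW64T.U2

/-! # Row U3: if the fibres through rational points are integral then `L` is algebraically closed in `K`

Plan. Let `α : K` be a root of a monic polynomial `h` with coefficients in `L`; we show
`α ∈ L`. `W_U1`: `r, y, w, m, c`, `ι`, `ev`. Let `α * β = a`, `a, β ∈ A`, `β ≠ 0` (`fracK`), and `d ∈ A0`
nonzero with `d * h.coeff n ∈ A0` for all `n` (`fracL`).
STEP 1. `α * ev (C c') = ev p` (in `K`) for some `p : (MvPolynomial (Fin r) A0)[X]` with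
`p.natDegree < m.natDegree` and `c' : MvPolynomial (Fin r) A0` nonzero. [The set of the elements
`ev p / ev (C c')`, `c' ≠ 0`, is a subfield of `K`: it is `E[w]` for the field
`E = {q(y) / e(y)}`, `w` integral over `E` (`m`); it contains `A` by the last property of `W_U1`, hence
`K` by `fracK`. Reduce `p` modulo `m`. `ev (C c') ≠ 0` by the independence for constant polynomials.]
STEP 2. Let `φ : A →ₐ[k] k` be a point with `φ (β * ι d * ev (C c) * ev (C c')) ≠ 0`,
`κ := FractionRing (A ⧸ fibreIdeal A A0 φ)` (a domain by `hF`), `ψ : A →ₐ[k] κ`, `ψ β ≠ 0` because elements of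
`fibreIdeal` are killed by `φ` (`Ideal.span_le`).
`α1 := ψ a / ψ β : κ` is a root of the monic `h^φ ∈ k[X]` (coefficients `φ (d * h.coeff n) / φ d`; multiply
`h(α) = 0` by `d * β ^ deg h` and apply `ψ`; `ψ = φ` on `A0`, see row U2 (a)), so it is algebraic over `k`.
Let `g ∈ k[X]` be its minimal polynomial over `k`, of degree `n`: `ψ (∑ g_i a ^ i β ^ (n - i)) = 0`, so this
element of `A` is killed by `φ`, and `u := φ a / φ β ∈ k` is a root of `g`: so `g = X - C u` and
`ψ a = ψ β * u`. From `a * ev (C c') = β * ev p` and `W_U2` (second part): `u * ev' (C c'^φ) = ev' (p^φ)`, and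
by `W_U2` (first part) `p^φ = C (C u * c'^φ)`: all coefficients `p_i`, `i ≥ 1`, of `p` have
`p_i^φ = 0`, and `p_0^φ = u c'^φ`, so that for all exponents `μ, ν`:
`φ (p_0,μ * c'_ν - p_0,ν * c'_μ) = 0`.
STEP 3. As this holds for all points `φ` as in STEP 2, all these elements of `A0` are zero: if `e ∈ A0` is
nonzero then `hdense` for the algebra `A` and the element `e * β * d * ev (C c) * ev (C c')` gives a point `φ`
with `φ e ≠ 0`. So `p = C p_0`, and `p_0 = λ c'` with `λ = p_0,μ / c'_μ ∈ L` (`c'_μ ≠ 0`), and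
`α = ev p / ev (C c') = λ ∈ L`. -/

set_option autoImplicit false
open Polynomial

namespace Pool.Agent.LibHP

/-- evaluation of constant polynomials -/
private theorem u3_evC {R B : Type} [CommRing R] [CommRing B] {r : ℕ} (j : R →+* B)
    (y : Fin r → B) (w : B) (q : MvPolynomial (Fin r) R) :
    evYW j y w (C q) = MvPolynomial.eval₂Hom j y q := by
  simp [evYW]

private theorem u3_ev {R B : Type} [CommRing R] [CommRing B] {r : ℕ} (j : R →+* B)
    (y : Fin r → B) (w : B) (q : (MvPolynomial (Fin r) R)[X]) :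
    evYW j y w q = q.eval₂ (MvPolynomial.eval₂Hom j y) w := rfl

/-- reduction modulo a monic polynomial -/
private theorem u3_mod {P B : Type} [CommRing P] [CommRing B] [Nontrivial P] (f : P →+* B) (w : B)
    (m : P[X]) (hm : m.Monic) (h1 : m ≠ 1) (hmw : m.eval₂ f w = 0) (p : P[X]) :
    ∃ p' : P[X], p'.natDegree < m.natDegree ∧ p'.eval₂ f w = p.eval₂ f w := by
  refine ⟨p %ₘ m, natDegree_modByMonic_lt p hm h1, ?_⟩
  conv_rhs => rw [← modByMonic_add_div p m]
  rw [eval₂_add, eval₂_mul, hmw, zero_mul, add_zero]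

/-- Step 1 in an abstract form -/
private theorem u3_step1 {P A : Type} [CommRing P] [IsDomain P] [CommRing A] [IsDomain A]
    (f : P →+* A) (w : A) (m : P[X]) (c : P) (hm : m.Monic) (hc : c ≠ 0)
    (hmw : m.eval₂ f w = 0) (hinj : ∀ q : P, f q = 0 → q = 0)
    (hb : ∀ b : A, ∃ (n : ℕ) (p : P[X]), b * f c ^ n = p.eval₂ f w) (β : A) (hβ : β ≠ 0) :
    ∃ (c' : P) (t : A), c' ≠ 0 ∧ f c' = β * t := by
  letI : Algebra P A := f.toAlgebra
  obtain ⟨n, p, hp⟩ := hb β
  have hw : IsIntegral P w := ⟨m, hm, hmw⟩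
  have h1 : IsIntegral P (p.eval₂ f w) := by
    have h2 : p.eval₂ f w = aeval w p := rfl
    rw [h2]
    have h3 : aeval w p ∈ Algebra.adjoin P {w} := aeval_mem_adjoin_singleton P w
    have h4 : Algebra.adjoin P {w} ≤ integralClosure P A :=
      Algebra.adjoin_le (by rintro x hx; rw [Set.mem_singleton_iff] at hx; rw [hx]; exact hw)
    exact h4 h3
  have h5 : IsAlgebraic P β := by
    rw [IsAlgebraic.iff_exists_smul_integral]
    refine ⟨c ^ n, pow_ne_zero n hc, ?_⟩
    have h6 : c ^ n • β = p.eval₂ f w := by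
      rw [Algebra.smul_def, ← hp]
      change f (c ^ n) * β = β * f c ^ n
      rw [map_pow, mul_comm]
    rw [h6]
    exact h1
  obtain ⟨c', hc', t, ht⟩ := h5.exists_nonzero_dvd (mem_nonZeroDivisors_of_ne_zero hβ)
  exact ⟨c', t, hc', ht⟩

/-- clearing denominators -/
private theorem u3_denom {k K : Type} [Field k] [Field K] [Algebra k K] (L : Subfield K)
    (A0 : Subalgebra k K)
    (hL : ∀ c : K, c ∈ L → ∃ u w : K, u ∈ A0 ∧ w ∈ A0 ∧ w ≠ 0 ∧ c * w = u)
    (h : K[X]) (hh : ∀ i, h.coeff i ∈ L) :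
    ∃ (d : A0) (H : A0[X]), d ≠ 0 ∧ H.map (A0.val : A0 →+* K) = C (d : K) * h := by
  classical
  choose u w hu hw hw0 huw using fun i => hL (h.coeff i) (hh i)
  let d : A0 := ∏ i ∈ h.support, (⟨w i, hw i⟩ : A0)
  have hd : (d : K) = ∏ i ∈ h.support, w i := by
    change (A0.val : A0 →+* K) d = _
    rw [map_prod]
    rfl
  have hd0 : d ≠ 0 := by
    intro h0
    have h1 : (d : K) = 0 := by rw [h0]; rfl
    rw [hd] at h1
    exact (Finset.prod_ne_zero_iff.2 fun i _ => hw0 i) h1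
  have hl : C (d : K) * h ∈ lifts (A0.val : A0 →+* K) := by
    rw [lifts_iff_coeff_lifts]
    intro n
    rw [coeff_C_mul]
    by_cases hn : n ∈ h.support
    · refine ⟨(∏ i ∈ h.support.erase n, (⟨w i, hw i⟩ : A0)) * ⟨u n, hu n⟩, ?_⟩
      rw [map_mul, map_prod, hd, ← Finset.prod_erase_mul _ _ hn]
      change (∏ i ∈ h.support.erase n, w i) * u n = _
      rw [← huw n]
      ring
    · refine ⟨0, ?_⟩
      rw [notMem_support_iff.1 hn, mul_zero, map_zero]
  obtain ⟨H, hH⟩ := hl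
  exact ⟨d, H, hd0, hH⟩

/-- Elements of the ideal of the fibre vanish at the point. -/
private theorem u3_kill {k K : Type} [Field k] [Field K] [Algebra k K] (A A0 : Subalgebra k K)
    (φ : A →ₐ[k] k) (b : A) (hb : b ∈ fibreIdeal A A0 φ) : φ b = 0 := by
  have h1 : fibreIdeal A A0 φ ≤ RingHom.ker (φ : A →+* k) := by
    refine Ideal.span_le.2 ?_
    rintro x ⟨_, hx⟩
    exact hx
  exact h1 hb

/-- On the base functions the map to the fibre is the evaluation at the point. -/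
private theorem u3_base {k K κ : Type} [Field k] [Field K] [Algebra k K] [Field κ] [Algebra k κ]
    (A A0 : Subalgebra k K) (hle : A0 ≤ A) (φ : A →ₐ[k] k) (ψ : A →ₐ[k] κ)
    (hψ : ∀ b : A, ψ b = 0 ↔ b ∈ fibreIdeal A A0 φ) (a0 : A0) :
    ψ (Subalgebra.inclusion hle a0) = algebraMap k κ (φ (Subalgebra.inclusion hle a0)) := by
  have h1 : Subalgebra.inclusion hle a0 - algebraMap k A (φ (Subalgebra.inclusion hle a0)) ∈
      fibreIdeal A A0 φ := by
    refine Ideal.subset_span ⟨?_, ?_⟩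
    · exact A0.sub_mem a0.2 (A0.algebraMap_mem _)
    · rw [map_sub, AlgHom.commutes]
      simp
  rw [← hψ, map_sub, AlgHom.commutes, sub_eq_zero] at h1
  exact h1

private theorem u3_scale {A F : Type} [CommRing A] [Field F] (f : A →+* F) (a β : A) (α1 : F)
    (h : f a = f β * α1) (q : A[X]) :
    f ((q.scaleRoots β).eval a) = f β ^ q.natDegree * q.eval₂ f α1 := by
  have h1 := scaleRoots_eval₂_mul (p := q) f α1 β
  rw [← h] at h1
  have h2 : f ((q.scaleRoots β).eval a) = (q.scaleRoots β).eval₂ f (f a) := by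
    rw [eval, hom_eval₂, RingHomCompTriple.comp_eq]
  exact h2.trans h1

/-- Step 2, first part: the value of `α` on the fibre is a constant. -/
private theorem u3_const {k K κ : Type} [Field k] [Field K] [Algebra k K] [Field κ] [Algebra k κ]
    (A A0 : Subalgebra k K) (hle : A0 ≤ A) (φ : A →ₐ[k] k) (ψ : A →ₐ[k] κ)
    (hψ : ∀ b : A, ψ b = 0 ↔ b ∈ fibreIdeal A A0 φ)
    (a β : A) (hβ : φ β ≠ 0) (H : A0[X]) (N : ℕ)
    (hHN : φ (Subalgebra.inclusion hle (H.coeff N)) ≠ 0)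
    (hH : ((H.map (Subalgebra.inclusion hle : A0 →+* A)).scaleRoots β).eval a = 0) :
    ψ a = ψ β * algebraMap k κ (φ a / φ β) := by
  have hker : ∀ b : A, ψ b = 0 → φ b = 0 := fun b hb => u3_kill A A0 φ b ((hψ b).1 hb)
  have hψβ : ψ β ≠ 0 := fun h0 => hβ (hker β h0)
  obtain ⟨α1, ha1⟩ : ∃ α1 : κ, ψ a = ψ β * α1 := ⟨ψ a / ψ β, (mul_div_cancel₀ _ hψβ).symm⟩
  obtain ⟨u, hu⟩ : ∃ u : k, φ a / φ β = u := ⟨_, rfl⟩
  have hau : φ a = φ β * u := by rw [← hu, mul_div_cancel₀ _ hβ]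
  have hs := u3_scale (ψ : A →+* κ) a β α1 ha1
  have hs' := u3_scale (φ : A →+* k) a β u hau
  have hpow : ∀ n : ℕ, (ψ : A →+* κ) β ^ n ≠ 0 := fun n => pow_ne_zero n hψβ
  have halg : IsAlgebraic k α1 := by
    refine ⟨H.map ((φ : A →+* k).comp (Subalgebra.inclusion hle : A0 →+* A)), ?_, ?_⟩
    · intro h0
      have h1 := congrArg (fun q => q.coeff N) h0
      simp only [coeff_map, coeff_zero] at h1
      exact hHN h1
    · have h1 := hs (H.map (Subalgebra.inclusion hle : A0 →+* A))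
      rw [hH, map_zero] at h1
      have h2 := (mul_eq_zero.1 h1.symm).resolve_left (hpow _)
      rw [eval₂_map] at h2
      rw [aeval_def, eval₂_map]
      rw [← h2]
      congr 1
      refine RingHom.ext fun x => ?_
      exact (u3_base A A0 hle φ ψ hψ x).symm
  have hirr := minpoly.irreducible halg.isIntegral
  have hg0 : ((minpoly k α1).map (algebraMap k A)).eval₂ (ψ : A →+* κ) α1 = 0 := by
    rw [eval₂_map]
    have h1 : ((ψ : A →+* κ).comp (algebraMap k A)) = algebraMap k κ := by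
      refine RingHom.ext fun x => ?_
      exact ψ.commutes x
    rw [h1]
    exact minpoly.aeval k α1
  have h3 := hs ((minpoly k α1).map (algebraMap k A))
  rw [hg0, mul_zero] at h3
  have h4 := hker _ h3
  have h5 := hs' ((minpoly k α1).map (algebraMap k A))
  have h6 : (φ : A →+* k) β ^ ((minpoly k α1).map (algebraMap k A)).natDegree *
      ((minpoly k α1).map (algebraMap k A)).eval₂ (φ : A →+* k) u = 0 := h5.symm.trans h4
  have h7 := (mul_eq_zero.1 h6).resolve_left (pow_ne_zero _ hβ)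
  rw [eval₂_map] at h7
  have h8 : ((φ : A →+* k).comp (algebraMap k A)) = RingHom.id k := by
    refine RingHom.ext fun x => ?_
    exact φ.commutes x
  rw [h8] at h7
  have h9 : (X - C u) ∣ minpoly k α1 := dvd_iff_isRoot.2 h7
  obtain ⟨q, hq⟩ := h9
  have h10 : IsUnit q := by
    rcases hirr.isUnit_or_isUnit hq with h | h
    · exact absurd h (not_isUnit_X_sub_C u)
    · exact h
  have h11 := minpoly.aeval k α1
  rw [hq, map_mul] at h11
  have h12 : aeval α1 q ≠ 0 := (h10.map (aeval α1)).ne_zero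
  have h13 := (mul_eq_zero.1 h11).resolve_right h12
  rw [map_sub, aeval_X, aeval_C, sub_eq_zero] at h13
  rw [ha1, h13, hu]

/-- Step 2, second part -/
private theorem u3_coeffs {R k κ : Type} [CommRing R] [Field k] [Field κ] {r : ℕ} (N : ℕ)
    (φ0 : R →+* k) (ev' : (MvPolynomial (Fin r) k)[X] →+* κ) (j : k →+* κ)
    (hj : ∀ x, ev' (C (MvPolynomial.C x)) = j x)
    (hinj : ∀ p : (MvPolynomial (Fin r) k)[X], p.natDegree < N → ev' p = 0 → p = 0)
    (p : (MvPolynomial (Fin r) R)[X]) (hp : p.natDegree < N) (c' : MvPolynomial (Fin r) R)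
    (u : k) (h : j u * ev' (mapYW r φ0 (C c')) = ev' (mapYW r φ0 p)) :
    (∀ i, i ≠ 0 → ∀ ν, φ0 ((p.coeff i).coeff ν) = 0) ∧
      ∀ ν, φ0 ((p.coeff 0).coeff ν) = u * φ0 (c'.coeff ν) := by
  have h1 : ev' (mapYW r φ0 p - C (MvPolynomial.C u) * mapYW r φ0 (C c')) = 0 := by
    rw [map_sub, map_mul, hj, h, sub_self]
  have h2 : mapYW r φ0 (C c') = C (MvPolynomial.map φ0 c') := by
    simp [mapYW]
  have h3 : (mapYW r φ0 p - C (MvPolynomial.C u) * mapYW r φ0 (C c')).natDegree < N := by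
    refine lt_of_le_of_lt (natDegree_sub_le _ _) (max_lt ?_ ?_)
    · exact lt_of_le_of_lt (natDegree_map_le) hp
    · rw [h2, ← C_mul, natDegree_C]
      omega
  have h4 := sub_eq_zero.1 (hinj _ h3 h1)
  have h5 : ∀ i, (mapYW r φ0 p).coeff i = MvPolynomial.map φ0 (p.coeff i) := by
    intro i
    simp [mapYW]
  refine ⟨fun i hi ν => ?_, fun ν => ?_⟩
  · have h6 := congrArg (fun q => q.coeff i) h4
    try simp only at h6
    rw [h5, h2, ← C_mul, coeff_C, if_neg hi] at h6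
    rw [← MvPolynomial.coeff_map, h6, MvPolynomial.coeff_zero]
  · have h6 := congrArg (fun q => q.coeff 0) h4
    try simp only at h6
    rw [h5, h2, ← C_mul, coeff_C_zero] at h6
    rw [← MvPolynomial.coeff_map, h6, MvPolynomial.coeff_C_mul, MvPolynomial.coeff_map]

theorem W_U3 (k K : Type) [Field k] [Field K] [CharZero K] [Algebra k K] (L : Subfield K)
    (A A0 : Subalgebra k K) (hM : IsModel L A A0) (hdense : DensePts k K)
    (hF : ∀ φ : A →ₐ[k] k, IsDomain (A ⧸ fibreIdeal A A0 φ)) : ClosedSub L := by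
  classical
  intro α hα
  obtain ⟨h, hmon, hhL, hroot⟩ := hα
  obtain ⟨r, y, w, m, c, hm, hc, hmw, hind, hb⟩ := W_U1 L A A0 hM
  obtain ⟨ι, hι⟩ : ∃ ι : A0 →+* A, ι = (Subalgebra.inclusion hM.le : A0 →+* A) := ⟨_, rfl⟩
  have hιK : ∀ x : A0, ((ι x : A) : K) = (x : K) := fun x => by rw [hι]; rfl
  have hind' := hind
  have hb' := hb
  rw [← hι] at hmw hind hb
  -- constants
  have hm1 : m ≠ 1 := by
    intro h0
    rw [h0, map_one] at hmw
    exact one_ne_zero hmw
  have hN : 0 < m.natDegree := by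
    rw [Nat.pos_iff_ne_zero]
    exact fun h0 => hm1 (hm.natDegree_eq_zero.1 h0)
  have hconst : ∀ q : MvPolynomial (Fin r) A0, evYW ι y w (C q) = 0 → q = 0 := by
    intro q hq
    have h1 := hind (C q) (by rw [natDegree_C]; exact hN) hq
    exact C_eq_zero.1 h1
  -- a and β
  obtain ⟨a, β, ha, hβ, hβ0, haβ⟩ := hM.fracK α
  obtain ⟨c1, t, hc1, ht⟩ := u3_step1 (MvPolynomial.eval₂Hom ι y) w m c hm hc hmw
    (fun q hq => hconst q (by rw [u3_evC]; exact hq))
    (fun b => by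
      obtain ⟨n, p, hp⟩ := hb b
      exact ⟨n, p, by rw [← u3_evC ι y w, hp]; rfl⟩) (⟨β, hβ⟩ : A)
    (fun h0 => hβ0 (congrArg Subtype.val h0))
  obtain ⟨n, p0, hp0⟩ := hb ((⟨a, ha⟩ : A) * t)
  obtain ⟨p, hpN, hp⟩ := u3_mod (MvPolynomial.eval₂Hom ι y) w m hm hm1 hmw p0
  obtain ⟨c', hc'⟩ : ∃ c' : MvPolynomial (Fin r) A0, c' = c1 * c ^ n := ⟨_, rfl⟩
  have hc'0 : c' ≠ 0 := by rw [hc']; exact mul_ne_zero hc1 (pow_ne_zero n hc)
  have hrel : (⟨a, ha⟩ : A) * evYW ι y w (C c') = (⟨β, hβ⟩ : A) * evYW ι y w p := by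
    rw [u3_ev ι y w p, hp, ← u3_ev ι y w p0, ← hp0, hc', C_mul, map_mul, C_pow, map_pow,
      u3_evC ι y w c1, ht]
    ring
  have hev'0 : evYW ι y w (C c') ≠ 0 := fun h0 => hc'0 (hconst c' h0)
  -- the polynomial h
  obtain ⟨d, H, hd0, hH⟩ := u3_denom L A0 (fun c => (hM.fracL c).1) h hhL
  have hHN : H.coeff h.natDegree = d := by
    have h1 := congrArg (fun q => q.coeff h.natDegree) hH
    simp only [coeff_map, coeff_C_mul] at h1
    rw [hmon.coeff_natDegree, mul_one] at h1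
    exact Subtype.ext h1
  have hHa : ((H.map ι).scaleRoots (⟨β, hβ⟩ : A)).eval (⟨a, ha⟩ : A) = 0 := by
    apply Subtype.ext
    have h1 := u3_scale (A.val : A →+* K) (⟨a, ha⟩ : A) (⟨β, hβ⟩ : A) α
      (by change a = β * α; rw [mul_comm]; exact haβ.symm) (H.map ι)
    have h2 : (A.val : A →+* K).comp ι = (A0.val : A0 →+* K) := RingHom.ext fun x => hιK x
    rw [eval₂_map, h2, eval₂_eq_eval_map, hH, eval_mul] at h1
    have h3 : h.eval α = 0 := hroot
    rw [h3, mul_zero, mul_zero] at h1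
    exact h1
  -- the elements of A0 killed by all good points
  obtain ⟨E, hE⟩ : ∃ E : A, E = (⟨β, hβ⟩ : A) * ι d * evYW ι y w (C c) * evYW ι y w (C c') :=
    ⟨_, rfl⟩
  have hE0 : E ≠ 0 := by
    rw [hE]
    refine mul_ne_zero (mul_ne_zero (mul_ne_zero ?_ ?_) ?_) hev'0
    · exact fun h0 => hβ0 (congrArg Subtype.val h0)
    · intro h0
      apply hd0
      apply Subtype.ext
      rw [← hιK d, h0]
      rfl
    · exact fun h0 => hc (hconst c h0)
  have hkill : ∀ e : A0, (∀ φ : A →ₐ[k] k, φ E ≠ 0 → φ (ι e) = 0) → e = 0 := by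
    intro e he
    by_contra h0
    have h1 : ι e * E ≠ 0 := by
      refine mul_ne_zero ?_ hE0
      intro h1
      apply h0
      apply Subtype.ext
      rw [← hιK e, h1]
      rfl
    obtain ⟨φ, hφ⟩ := hdense A hM.fg (ι e * E) h1
    rw [map_mul] at hφ
    exact (left_ne_zero_of_mul hφ) (he φ (right_ne_zero_of_mul hφ))
  -- Step 2
  have hstep2 : ∀ φ : A →ₐ[k] k, φ E ≠ 0 → (∀ i, i ≠ 0 → ∀ ν, φ (ι ((p.coeff i).coeff ν)) = 0) ∧
      ∀ ν, φ (ι ((p.coeff 0).coeff ν)) = φ ⟨a, ha⟩ / φ ⟨β, hβ⟩ * φ (ι (c'.coeff ν)) := by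
    intro φ hφ
    rw [hE, map_mul, map_mul, map_mul] at hφ
    have hφc := right_ne_zero_of_mul (left_ne_zero_of_mul hφ)
    have hφβ := left_ne_zero_of_mul (left_ne_zero_of_mul (left_ne_zero_of_mul hφ))
    have hφd := right_ne_zero_of_mul (left_ne_zero_of_mul (left_ne_zero_of_mul hφ))
    haveI := hF φ
    let ψ : A →ₐ[k] FractionRing (A ⧸ fibreIdeal A A0 φ) :=
      (IsScalarTower.toAlgHom k (A ⧸ fibreIdeal A A0 φ) (FractionRing (A ⧸ fibreIdeal A A0 φ))).comp
        (Ideal.Quotient.mkₐ k (fibreIdeal A A0 φ))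
    have hψ : ∀ b : A, ψ b = 0 ↔ b ∈ fibreIdeal A A0 φ := by
      intro b
      have h1 : ψ b = algebraMap (A ⧸ fibreIdeal A A0 φ) (FractionRing (A ⧸ fibreIdeal A A0 φ))
        (Ideal.Quotient.mk (fibreIdeal A A0 φ) b) := rfl
      rw [h1, ← Ideal.Quotient.eq_zero_iff_mem]
      constructor
      · intro h2
        exact (IsFractionRing.injective (A ⧸ fibreIdeal A A0 φ)
          (FractionRing (A ⧸ fibreIdeal A A0 φ))) (by rw [h2, map_zero])
      · intro h2
        rw [h2, map_zero]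
    have hcst := u3_const A A0 hM.le φ ψ hψ ⟨a, ha⟩ ⟨β, hβ⟩ hφβ H h.natDegree
      (by rw [hHN]; rw [hι] at hφd; exact hφd) (by rw [hι] at hHa; exact hHa)
    obtain ⟨hU1, hU2⟩ := W_U2 L A A0 hM r y w m c hm (by rw [← hι]; exact hmw) hind' hb' φ ψ hψ
      (by rw [← hι]; exact hφc)
    rw [← hι] at hU2
    have hψβ : ψ ⟨β, hβ⟩ ≠ 0 := fun h0 => hφβ (u3_kill A A0 φ _ ((hψ _).1 h0))
    have h3 := congrArg ψ hrel
    rw [map_mul, map_mul, hcst, mul_assoc] at h3
    have h4 := mul_left_cancel₀ hψβ h3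
    rw [hU2, hU2] at h4
    exact u3_coeffs m.natDegree ((φ : A →+* k).comp ι) _ (algebraMap k _)
      (fun x => by simp [evYW]) hU1 p hpN c' _ h4
  -- Step 3
  have hp1 : ∀ i, i ≠ 0 → p.coeff i = 0 := by
    intro i hi
    ext ν
    rw [MvPolynomial.coeff_zero]
    rw [hkill _ fun φ hφ => (hstep2 φ hφ).1 i hi ν]
  have hpC : p = C (p.coeff 0) := by
    ext1 i
    by_cases hi : i = 0
    · rw [hi, coeff_C_zero]
    · rw [hp1 i hi, coeff_C, if_neg hi]
  obtain ⟨μ, hμ⟩ := MvPolynomial.ne_zero_iff.1 hc'0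
  have hprop : ∀ ν, (p.coeff 0).coeff μ * c'.coeff ν = c'.coeff μ * (p.coeff 0).coeff ν := by
    intro ν
    rw [← sub_eq_zero]
    refine hkill _ fun φ hφ => ?_
    rw [map_sub, map_sub, map_mul, map_mul, map_mul, map_mul, (hstep2 φ hφ).2 ν,
      (hstep2 φ hφ).2 μ]
    ring
  have hprop' : MvPolynomial.C ((p.coeff 0).coeff μ) * c' =
      MvPolynomial.C (c'.coeff μ) * p.coeff 0 := by
    ext ν
    rw [MvPolynomial.coeff_C_mul, MvPolynomial.coeff_C_mul, hprop]
  have h5 : ι ((p.coeff 0).coeff μ) * evYW ι y w (C c') = ι (c'.coeff μ) * evYW ι y w p := by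
    have h6 := congrArg (fun q => evYW ι y w (C q)) hprop'
    simp only [C_mul, map_mul] at h6
    rw [← hpC] at h6
    have h7 : ∀ x : A0, evYW ι y w (C (MvPolynomial.C x)) = ι x := by
      intro x
      simp [evYW]
    rw [h7, h7] at h6
    exact h6
  have h8 : (⟨β, hβ⟩ : A) * ι ((p.coeff 0).coeff μ) = (⟨a, ha⟩ : A) * ι (c'.coeff μ) := by
    apply mul_right_cancel₀ hev'0
    rw [mul_assoc, h5, mul_assoc, mul_comm (ι (c'.coeff μ)), ← mul_assoc, ← mul_assoc,
      mul_assoc (⟨a, ha⟩ : A), mul_comm (ι (c'.coeff μ)), ← mul_assoc, hrel]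
  have h9 := congrArg (fun x : A => (x : K)) h8
  simp only [MulMemClass.coe_mul, hιK] at h9
  rw [hM.fracL]
  refine ⟨((p.coeff 0).coeff μ : A0), (c'.coeff μ : A0), SetLike.coe_mem _, SetLike.coe_mem _, ?_, ?_⟩
  · exact fun h0 => hμ (Subtype.ext h0)
  · apply mul_left_cancel₀ hβ0
    rw [h9, ← haβ]
    ring

end Pool.Agent.LibHP
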