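import Pool.Agent.LibW64.FDefs
import Pool.Agent.LibK3G.HL1
import Pool.Agent.LibHP.S4

/-! # Fibrations whose fibres have the Hilbert property: scheme language, definitions -/

set_option autoImplicit false
open Polynomial

namespace Pool.Agent.LibHP

/-- The value of a polynomial in `Y_1, ..., Y_r` and `W` at `y`, `w`. -/
noncomputable def evYW {R B : Type} [CommRing R] [CommRing B] {r : ℕ} (j : R →+* B)
    (y : Fin r → B) (w : B) : (MvPolynomial (Fin r) R)[X] →+* B :=
  Polynomial.eval₂RingHom (MvPolynomial.eval₂Hom j y) w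

/-- Change of the coefficients of a polynomial in `Y_1, ..., Y_r` and `W`. -/
noncomputable def mapYW {R F : Type} [CommRing R] [CommRing F] (r : ℕ) (φ : R →+* F) :
    (MvPolynomial (Fin r) R)[X] →+* (MvPolynomial (Fin r) F)[X] :=
  Polynomial.mapRingHom (MvPolynomial.map φ)

/-- The subalgebras `A0 ⊆ A` are finitely generated models of the subfield `L` of `K` and of `K`. -/
structure IsModel {k K : Type} [Field k] [Field K] [Algebra k K] (L : Subfield K)
    (A A0 : Subalgebra k K) : Prop where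
  fg : A.FG
  fg0 : A0.FG
  le : A0 ≤ A
  fracL : ∀ c : K, c ∈ L ↔ ∃ u w : K, u ∈ A0 ∧ w ∈ A0 ∧ w ≠ 0 ∧ c * w = u
  fracK : ∀ c : K, ∃ u w : K, u ∈ A ∧ w ∈ A ∧ w ≠ 0 ∧ c * w = u

/-- As `FibresHP` (LibW64/FDefs.lean), without the conditions on `L`. -/
def FibresHP0 (k : Type) {K : Type} [Field k] [Field K] [Algebra k K] (L : Subfield K) : Prop :=
  ∃ A A0 : Subalgebra k K, IsModel L A A0 ∧
    ∀ φ : A →ₐ[k] k, ∃ _ : IsDomain (A ⧸ fibreIdeal A A0 φ), HPRing k (A ⧸ fibreIdeal A A0 φ)

end Pool.Agent.LibHP
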