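import Pool.Agent.LibHP.SDefs

/-! # Fibrations whose fibres have the Hilbert property: scheme definition -/

set_option autoImplicit false
open AlgebraicGeometry CategoryTheory

namespace Pool.Agent.LibHP

/-- There is a morphism `g : V ⟶ T` over `k`, from an open neighbourhood `V` of `x` in `X` to an
integral scheme `T` locally of finite type over `k`, which sends `x` to the generic point of `T`
(the prime divisor with generic point `x` is horizontal), such that for all `k`-points `s` of a
nonempty open subset `W` of `V` the fibre of `g` through `s` is integral, normal and has the Hilbert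
property. -/
def FibreHP {k : Type} [Field k] {X : Scheme.{0}} (f : X ⟶ Spec (CommRingCat.of k)) (x : X) :
    Prop :=
  ∃ (V T : Scheme.{0}) (_ : IsIntegral V) (_ : IsIntegral T) (j : V ⟶ X) (g : V ⟶ T)
    (t : T ⟶ Spec (CommRingCat.of k)) (v : V) (W : V.Opens),
    IsOpenImmersion j ∧ LocallyOfFiniteType t ∧ g ≫ t = j ≫ f ∧
    j.base v = x ∧ g.base v = genericPoint T ∧ (W : Set V).Nonempty ∧
    ∀ s : Spec (CommRingCat.of k) ⟶ V, s ≫ j ≫ f = 𝟙 _ → Set.range s.base ⊆ W →
      IsIntegral (Limits.pullback g (s ≫ g)) ∧
      (∀ y : ↥(Limits.pullback g (s ≫ g)),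
        IsIntegrallyClosed ((Limits.pullback g (s ≫ g)).presheaf.stalk y)) ∧
      HilbertProp (Limits.pullback.snd g (s ≫ g))

end Pool.Agent.LibHP
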