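import Pool.Agent.LibHP.SDefs

/-! # Row T1b: the function field of an integral scheme with an affine open piece

Plan. The image `U` of `u` is an affine open subset (`isAffineOpen_opensRange`), nonempty because `P` is
nontrivial, so it contains the generic point `η` of `Z` (`genericPoint_specializes`/
`genericPoint_mem`-like lemmas: `(genericPoint_spec Z).mem_open_set_iff`), and
`functionField_isFractionRing_of_isAffineOpen` says that `Z.functionField` is a fraction ring of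
`Γ(Z, U)`. `P ≅ Γ(Spec P, ⊤) ≅ Γ(Z, U)` (`u.appIso ⊤`, `Scheme.ΓSpecIso P`). Put
`θ := (Scheme.ΓSpecIso P).inv ≫ (u.appIso ⊤).inv ≫ (germ to the stalk at η)`. For the last statement:
`toStalk q η c` is the germ of the image of `c` under `q.appTop`; restrict it to `U`, `u ≫ q = Spec.map b`. -/

set_option autoImplicit false
open AlgebraicGeometry CategoryTheory

namespace Pool.Agent.LibHP

theorem W_T1b {k : Type} [Field k] {Z : Scheme.{0}} [IsIntegral Z]
    (q : Z ⟶ Spec (CommRingCat.of k)) (P : CommRingCat.{0}) (hP : Nontrivial P)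
    (b : CommRingCat.of k ⟶ P) (u : Spec P ⟶ Z) (hu : IsOpenImmersion u)
    (hq : u ≫ q = Spec.map b) :
    ∃ θ : P →+* Z.functionField, Function.Injective θ ∧
      (∀ z : Z.functionField, ∃ x y : P, θ y ≠ 0 ∧ z * θ y = θ x) ∧
      ∀ c : k, toStalk q (genericPoint Z) c = θ (b.hom c) := by
  have hU : IsAffineOpen (u ''ᵁ ⊤) := by
    rw [Scheme.Hom.image_top_eq_opensRange]
    exact isAffineOpen_opensRange u
  have hne : Nonempty (u ''ᵁ ⊤ : Z.Opens) := by
    have h0 : Nonempty (Spec P) := inferInstance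
    obtain ⟨x⟩ := h0
    exact ⟨⟨u x, ⟨x, trivial, rfl⟩⟩⟩
  have hfr := functionField_isFractionRing_of_isAffineOpen Z (u ''ᵁ ⊤) hU
  let e : P ≅ Γ(Z, u ''ᵁ ⊤) := (Scheme.ΓSpecIso P).symm ≪≫ (u.appIso ⊤).symm
  let θ : P ⟶ Z.functionField := e.hom ≫ Z.germToFunctionField (u ''ᵁ ⊤)
  have hθ : ∀ x : P, θ.hom x = algebraMap Γ(Z, u ''ᵁ ⊤) Z.functionField (e.hom.hom x) :=
    fun x => rfl
  have hbij : ∀ y : Γ(Z, u ''ᵁ ⊤), ∃ x : P, e.hom.hom x = y := fun y =>
    ⟨e.inv.hom y, by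
      simp⟩
  refine ⟨θ.hom, ?_, fun z => ?_, fun c => ?_⟩
  · intro x y hxy
    rw [hθ, hθ] at hxy
    have h1 : e.hom.hom x = e.hom.hom y := IsFractionRing.injective _ _ hxy
    have h2 := congrArg (fun t => e.inv.hom t) h1
    have h3 : ∀ x : P, e.inv.hom (e.hom.hom x) = x := fun x => by
      simp
    simpa [h3] using h2
  · obtain ⟨⟨x, y⟩, hxy⟩ := IsLocalization.surj (nonZeroDivisors Γ(Z, u ''ᵁ ⊤)) z
    obtain ⟨x', hx'⟩ := hbij x
    obtain ⟨y', hy'⟩ := hbij y
    refine ⟨x', y', ?_, ?_⟩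
    · rw [hθ, hy']
      exact IsFractionRing.to_map_ne_zero_of_mem_nonZeroDivisors y.2
    · rw [hθ, hθ, hx', hy']
      exact hxy
  · have h1 : b ≫ (Scheme.ΓSpecIso P).inv =
        (Scheme.ΓSpecIso (CommRingCat.of k)).inv ≫ q.appTop ≫ u.appTop := by
      rw [Scheme.ΓSpecIso_inv_naturality, ← hq, Scheme.Hom.comp_appTop]
    have h2 : b ≫ θ = (Scheme.ΓSpecIso (CommRingCat.of k)).inv ≫ q.appTop ≫
        Z.presheaf.germ ⊤ (genericPoint Z) trivial := by
      have h3 : u.appTop ≫ (u.appIso ⊤).inv ≫ Z.germToFunctionField (u ''ᵁ ⊤) =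
          Z.presheaf.germ ⊤ (genericPoint Z) trivial := by
        have h4 := u.app_appIso_inv ⊤
        change (u.app ⊤ ≫ (u.appIso (u ⁻¹ᵁ ⊤)).inv) ≫ Z.presheaf.germ (u ''ᵁ ⊤)
          (genericPoint Z) _ = _
        rw [h4]
        exact Z.presheaf.germ_res _ _ _
      change b ≫ ((Scheme.ΓSpecIso P).inv ≫ (u.appIso ⊤).inv) ≫
        Z.germToFunctionField (u ''ᵁ ⊤) = _
      rw [Category.assoc, reassoc_of% h1, h3]
    have h5 := congrArg (fun f : CommRingCat.of k ⟶ Z.functionField => f.hom c) h2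
    exact h5.symm

end Pool.Agent.LibHP
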