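import Mathlib

/-! # Row T1c: base change along a surjection

ONLY MATHLIB, SHORT. Plan. As `φ.comp α : R →+* k` is surjective with kernel `I`, and
`J := Ideal.map α I = Ideal.span {b | ∃ a, α a = b ∧ φ b = 0}` is contained in the kernel of `φ`, the ring
`B ⧸ J` with `B → B ⧸ J` and `k → B ⧸ J` (`c ↦ class of α a`, where `φ (α a) = c`; well defined) is a
pushout (or compare: `IsPushout.desc` gives `P → B ⧸ J` compatible with `B → B ⧸ J`, so the kernel of
`a` is contained in `J`). The other inclusion: if `b0 = α a0`, `φ b0 = 0`, then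
`a b0 = b (φ (α a0)) = 0`. Surjectivity of `a`: not needed here, but the third statement:
every element of `P` is `a x` : the range of `a` contains the range of `b` (by surjectivity of `R → k`),
and `P` is generated by the two ranges (compare `hpo` with the tensor product:
`CommRingCat.isPushout_tensorProduct` and `IsPushout.isoIsPushout`; or: the range of `a` is a cocone,
and the composition of the induced map `P → range` with the inclusion is the identity). -/

set_option autoImplicit false
open CategoryTheory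

namespace Pool.Agent.LibHP

private theorem T1c_w (R B k P : CommRingCat.{0}) (α : R ⟶ B) (φ : B ⟶ k) (a : B ⟶ P) (b : k ⟶ P)
    (hpo : IsPushout α (α ≫ φ) a b) (c : R) : a.hom (α.hom c) = b.hom (φ.hom (α.hom c)) := by
  have h := congrArg (fun f : R ⟶ P => f.hom c) hpo.w
  simpa using h

/-- Factorization of a ring homomorphism through a surjective one. -/
private theorem T1c_lift {R k Q : Type} [CommRing R] [CommRing k] [CommRing Q] (f : R →+* k)
    (hf : Function.Surjective f) (g : R →+* Q) (hg : ∀ r, f r = 0 → g r = 0) :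
    ∃ β : k →+* Q, ∀ r, β (f r) = g r := by
  refine ⟨RingHom.liftOfSurjective f hf ⟨g, fun r hr => ?_⟩, fun r => ?_⟩
  · exact hg r hr
  · exact RingHom.liftOfRightInverse_comp_apply f _ _ _ r

theorem W_T1c (R B k P : CommRingCat.{0}) (α : R ⟶ B) (φ : B ⟶ k)
    (hsurj : Function.Surjective (α ≫ φ).hom) (a : B ⟶ P) (b : k ⟶ P)
    (hpo : IsPushout α (α ≫ φ) a b) :
    (∀ x : B, a.hom x = 0 ↔ x ∈ Ideal.span {x : B | ∃ c : R, α.hom c = x ∧ φ.hom x = 0}) ∧
      (∀ c : R, a.hom (α.hom c) = b.hom (φ.hom (α.hom c))) ∧ Function.Surjective a.hom := by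
  have hw := T1c_w R B k P α φ a b hpo
  refine ⟨fun x => ⟨fun hx => ?_, fun hx => ?_⟩, hw, ?_⟩
  · set J : Ideal B := Ideal.span {x : B | ∃ c : R, α.hom c = x ∧ φ.hom x = 0} with hJ
    obtain ⟨β, hβ⟩ := T1c_lift (α ≫ φ).hom hsurj ((Ideal.Quotient.mk J).comp α.hom)
      (fun r hr => by
        rw [RingHom.comp_apply, Ideal.Quotient.eq_zero_iff_mem]
        exact Ideal.subset_span ⟨r, rfl, by simpa using hr⟩)
    have h1 : α ≫ CommRingCat.ofHom (Ideal.Quotient.mk J) = (α ≫ φ) ≫ CommRingCat.ofHom β := by
      ext r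
      simpa using (hβ r).symm
    have h2 := congrArg (fun f : B ⟶ CommRingCat.of (B ⧸ J) => f.hom x) (hpo.inl_desc _ _ h1)
    have h3 : (Ideal.Quotient.mk J) x = 0 := by
      refine Eq.trans h2.symm ?_
      change (hpo.desc _ _ h1).hom (a.hom x) = 0
      rw [hx, map_zero]
    exact Ideal.Quotient.eq_zero_iff_mem.1 h3
  · have h1 : Ideal.span {x : B | ∃ c : R, α.hom c = x ∧ φ.hom x = 0} ≤ RingHom.ker a.hom := by
      rw [Ideal.span_le]
      rintro _ ⟨c, rfl, hc⟩
      change a.hom (α.hom c) = 0
      rw [hw c, hc, map_zero]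
    exact h1 hx
  · obtain ⟨β, hβ⟩ := T1c_lift (α ≫ φ).hom hsurj (a.hom.rangeRestrict.comp α.hom)
      (fun r hr => by
        apply Subtype.ext
        have h2 : φ.hom (α.hom r) = 0 := by simpa using hr
        change a.hom (α.hom r) = 0
        rw [hw r, h2, map_zero])
    have h1 : α ≫ CommRingCat.ofHom a.hom.rangeRestrict = (α ≫ φ) ≫ CommRingCat.ofHom β := by
      ext r
      have := (hβ r).symm
      exact congrArg Subtype.val this
    have h3 : hpo.desc _ _ h1 ≫ CommRingCat.ofHom a.hom.range.subtype = 𝟙 P := by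
      apply hpo.hom_ext
      · rw [← Category.assoc, hpo.inl_desc]
        ext r
        rfl
      · rw [← Category.assoc, hpo.inr_desc]
        ext r
        obtain ⟨c, rfl⟩ := hsurj r
        have h4 : (β ((α ≫ φ).hom c) : P) = a.hom (α.hom c) := by
          rw [hβ c]
          rfl
        have h5 := hw c
        simp only [CommRingCat.hom_comp, CommRingCat.hom_ofHom, RingHom.comp_apply,
          Category.comp_id] at h4 h5 ⊢
        rw [← h5, ← h4]
        rfl
    intro y
    have h6 := congrArg (fun f : P ⟶ P => f.hom y) h3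
    have h7 := ((hpo.desc _ _ h1).hom y).2
    obtain ⟨x, hx⟩ := h7
    exact ⟨x, hx.trans h6⟩

end Pool.Agent.LibHP
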