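import Pool.Agent.LibW64T.T1a
import Pool.Agent.LibW64T.T1b
import Pool.Agent.LibW64T.T1c

/-! # Row T1: the generic point of the fibre through a rational point

Plan. Take a pushout `P, a, b` of `g.appLE T0 V0 hle` and `g.appLE T0 V0 hle ≫ φ` in `CommRingCat`
(`Limits.pushout`, `IsPushout.of_hasPushout`; `Limits.HasPushouts CommRingCat`). `W_T1a` gives `u`, `W_T1b` (with
`q`; `P` is nontrivial because there is a homomorphism `P → k`: `hpo.desc φ (𝟙 _)`) gives `θ`, and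
`ψ := θ.comp a.hom`; use `W_T1c` (`θ` is injective, `a` surjective). -/

set_option autoImplicit false
open AlgebraicGeometry CategoryTheory

namespace Pool.Agent.LibHP

theorem W_T1 {k : Type} [Field k] {V T Z : Scheme.{0}} [IsIntegral Z] (g : V ⟶ T) (T0 : T.Opens)
    (hT0 : IsAffineOpen T0) (V0 : V.Opens) (hV0 : IsAffineOpen V0) (hle : V0 ≤ g ⁻¹ᵁ T0)
    (φ : Γ(V, V0) ⟶ CommRingCat.of k)
    (hsurj : Function.Surjective (g.appLE T0 V0 hle ≫ φ).hom)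
    (s : Spec (CommRingCat.of k) ⟶ V)
    (hs : s = Spec.map φ ≫ hV0.fromSpec) (p : Z ⟶ V) (q : Z ⟶ Spec (CommRingCat.of k))
    (hpb : IsPullback p q g (s ≫ g)) :
    ∃ ψ : Γ(V, V0) →+* Z.functionField,
      (∀ b : Γ(V, V0), ψ b = 0 ↔
        b ∈ Ideal.span {b : Γ(V, V0) | ∃ a : Γ(T, T0), (g.appLE T0 V0 hle).hom a = b ∧
          φ.hom b = 0}) ∧
      (∀ z : Z.functionField, ∃ a b : Γ(V, V0), ψ b ≠ 0 ∧ z * ψ b = ψ a) ∧
      ∀ a : Γ(T, T0), ψ ((g.appLE T0 V0 hle).hom a) =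
        toStalk q (genericPoint Z) (φ.hom ((g.appLE T0 V0 hle).hom a)) := by
  have hpo := IsPushout.of_hasPushout (g.appLE T0 V0 hle) (g.appLE T0 V0 hle ≫ φ)
  set P := Limits.pushout (g.appLE T0 V0 hle) (g.appLE T0 V0 hle ≫ φ)
  set a : Γ(V, V0) ⟶ P := Limits.pushout.inl (g.appLE T0 V0 hle) (g.appLE T0 V0 hle ≫ φ)
  set b : CommRingCat.of k ⟶ P :=
    Limits.pushout.inr (g.appLE T0 V0 hle) (g.appLE T0 V0 hle ≫ φ)
  obtain ⟨u, hu, hup, huq⟩ := W_T1a g T0 hT0 V0 hV0 hle φ s hs p q hpb P a b hpo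
  have hP : Nontrivial P := by
    have hd := hpo.desc φ (𝟙 _) (by rw [Category.comp_id])
    exact hd.hom.domain_nontrivial
  obtain ⟨θ, hθ, hfr, hc⟩ := W_T1b q P hP b u hu huq
  obtain ⟨h1, h2, h3⟩ := W_T1c _ _ _ P (g.appLE T0 V0 hle) φ hsurj a b hpo
  refine ⟨θ.comp a.hom, fun x => ?_, fun z => ?_, fun x => ?_⟩
  · rw [← h1 x, RingHom.comp_apply]
    exact ⟨fun h => hθ (h.trans (map_zero θ).symm), fun h => by rw [h, map_zero]⟩
  · obtain ⟨x, y, hy, hxy⟩ := hfr z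
    obtain ⟨x', rfl⟩ := h3 x
    obtain ⟨y', rfl⟩ := h3 y
    exact ⟨x', y', hy, hxy⟩
  · rw [RingHom.comp_apply, hc]
    exact congrArg θ (h2 x)

end Pool.Agent.LibHP
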