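import Mathlib

/-! # Row T1a: an affine open piece of a fibre product

ONLY MATHLIB. Plan. `R := Γ(T, T0)`, `B := Γ(V, V0)`, `R →+* B` is `(g.appLE T0 V0 hle).hom`, `R →+* k` is
`φ.comp (that)`. We must produce `u : Spec (B ⊗_R k) ⟶ Z` (as the pushout is only used through
its universal property, it is stated with `IsPushout` in `CommRingCat`; take
`CommRingCat.isPushout_tensorProduct` or any `IsPushout`).
1. `Spec.map` turns `hpo` into a pullback square over `Spec R` (`IsPushout` to `IsPullback`: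
`hpo.op.map Scheme.Spec`-like, `AlgebraicGeometry.isPullback_SpecMap_of_isPushout` or
`pullbackSpecIso`), and because `hT0.fromSpec : Spec R ⟶ T` is a monomorphism the square over `T` with
`Spec B ⟶ Spec R ⟶ T` is a pullback too (`IsPullback.of_...mono`, or check the universal property by
hand). `hV0.fromSpec ≫ g = Spec.map (g.appLE ..) ≫ hT0.fromSpec` is
`IsAffineOpen.SpecMap_appLE_fromSpec`. So with `i := hV0.fromSpec : Spec B ⟶ V`:
`IsPullback (Spec.map a) (Spec.map b) (i ≫ g) (s ≫ g)`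
(`s ≫ g = Spec.map (φ ∘ appLE) ≫ hT0.fromSpec` by `hs`).
2. By pasting with the pullback square `hpb` (`IsPullback.of_right`-like) the induced
`u := hpb.lift (Spec.map a ≫ i) (Spec.map b) _` fits into a pullback square of `u` along the open
immersion `i` and `p`: so `u` is an open immersion (`MorphismProperty.of_isPullback`, stability of open
immersions under base change). -/

set_option autoImplicit false
open AlgebraicGeometry CategoryTheory

namespace Pool.Agent.LibHP

theorem W_T1a {k : Type} [Field k] {V T Z : Scheme.{0}} (g : V ⟶ T) (T0 : T.Opens)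
    (hT0 : IsAffineOpen T0) (V0 : V.Opens) (hV0 : IsAffineOpen V0) (hle : V0 ≤ g ⁻¹ᵁ T0)
    (φ : Γ(V, V0) ⟶ CommRingCat.of k) (s : Spec (CommRingCat.of k) ⟶ V)
    (hs : s = Spec.map φ ≫ hV0.fromSpec) (p : Z ⟶ V) (q : Z ⟶ Spec (CommRingCat.of k))
    (hpb : IsPullback p q g (s ≫ g)) (P : CommRingCat.{0}) (a : Γ(V, V0) ⟶ P)
    (b : CommRingCat.of k ⟶ P)
    (hpo : IsPushout (g.appLE T0 V0 hle) (g.appLE T0 V0 hle ≫ φ) a b) :
    ∃ u : Spec P ⟶ Z, IsOpenImmersion u ∧ u ≫ p = Spec.map a ≫ hV0.fromSpec ∧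
      u ≫ q = Spec.map b := by
  have h1 := isPullback_SpecMap_of_isPushout _ _ a b hpo
  have e1 : Spec.map (g.appLE T0 V0 hle) ≫ hT0.fromSpec = hV0.fromSpec ≫ g :=
    IsAffineOpen.SpecMap_appLE_fromSpec g hT0 hV0 hle
  have e2 : Spec.map (g.appLE T0 V0 hle ≫ φ) ≫ hT0.fromSpec = s ≫ g := by
    rw [Spec.map_comp, Category.assoc, e1, hs, Category.assoc]
  have h2 : IsPullback (Spec.map a) (Spec.map b)
      (Spec.map (g.appLE T0 V0 hle) ≫ hT0.fromSpec)
      (Spec.map (g.appLE T0 V0 hle ≫ φ) ≫ hT0.fromSpec) :=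
    IsPullback.of_isLimit (Limits.PullbackCone.isLimitOfCompMono _ _ hT0.fromSpec _ h1.isLimit)
  rw [e1, e2] at h2
  have hw : (Spec.map a ≫ hV0.fromSpec) ≫ g = Spec.map b ≫ s ≫ g := by
    rw [Category.assoc]
    exact h2.w
  have hq : hpb.lift (Spec.map a ≫ hV0.fromSpec) (Spec.map b) hw ≫ q = Spec.map b :=
    hpb.lift_snd _ _ hw
  have hp : hpb.lift (Spec.map a ≫ hV0.fromSpec) (Spec.map b) hw ≫ p =
      Spec.map a ≫ hV0.fromSpec := hpb.lift_fst _ _ hw
  refine ⟨hpb.lift (Spec.map a ≫ hV0.fromSpec) (Spec.map b) hw, ?_, hp, hq⟩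
  have h3 : IsPullback (hpb.lift (Spec.map a ≫ hV0.fromSpec) (Spec.map b) hw ≫ q)
      (Spec.map a) (s ≫ g) (hV0.fromSpec ≫ g) := by
    rw [hq]
    exact h2.flip
  have h4 := IsPullback.of_right h3 hp hpb.flip
  exact MorphismProperty.of_isPullback (P := @IsOpenImmersion) h4.flip inferInstance

end Pool.Agent.LibHP
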