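import Pool.Agent.LibW64T.Defs

/-! # Row T2c: the Hilbert property of a field and of a ring

`W_T2c`. Plan. `B1 := Localization.Away b`, of finite type over `k`, `θ1 : B1 →ₐ[k] κ` the extension of `θ`
(`IsLocalization.Away.lift`; `θ b ≠ 0`). The polynomials `(P i).map (algebraMap B B1)` have no root in `κ`
via `θ1`: `FractionRing B ≃ κ` over `B` (`hinj`, `hfrac`: `κ` is a fraction ring of `B`,
`IsFractionRing` from the two properties, `FractionRing.algEquiv`). Apply `Hil k κ`
(`Pool.Agent.LibK3G.Hil`) with `m := Nat.card ι` and a bijection `Fin m ≃ ι` (`Finite.equivFin`): `φ : B1 →ₐ[k] k`,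
`ψ := φ.comp (algebraMap B B1)`, `ψ b ≠ 0` as `b` is a unit in `B1`.

`W_T2d`: SHORT. The kernel of `ψ` is `fibreIdeal`, so `A ⧸ fibreIdeal A A0 φ` embeds into `κ`
(`Ideal.Quotient.liftₐ`), it is a domain; apply `W_T2c` (`A` is of finite type: `Subalgebra.fg_iff_finiteType`). -/

set_option autoImplicit false
open Polynomial

namespace Pool.Agent.LibHP

open Pool.Agent.LibK3G (Hil)

theorem W_T2c (k B κ : Type) [Field k] [CommRing B] [IsDomain B] [Algebra k B]
    [Algebra.FiniteType k B] [Field κ] [Algebra k κ] (θ : B →ₐ[k] κ)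
    (hinj : Function.Injective θ) (hfrac : ∀ z : κ, ∃ x y : B, θ y ≠ 0 ∧ z * θ y = θ x)
    (h : Hil k κ) : HPRing k B := by
  intro b hb ι _ P hP hroot
  have hθb : θ b ≠ 0 := fun h0 => hb (hinj (by rw [h0, map_zero]))
  have hu : IsUnit ((θ : B →+* κ) b) := isUnit_iff_ne_zero.mpr hθb
  have hft : Algebra.FiniteType k (Localization.Away b) := by
    have : Algebra.FiniteType B (Localization.Away b) :=
      IsLocalization.finiteType_of_monoid_fg (Submonoid.powers b) (Localization.Away b)
    exact Algebra.FiniteType.trans (S := B) inferInstance this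
  let θ0 : Localization.Away b →+* κ := IsLocalization.Away.lift b hu
  have hθ0 : ∀ x : B, θ0 (algebraMap B (Localization.Away b) x) = θ x := fun x =>
    IsLocalization.Away.lift_eq b hu x
  let θ1 : Localization.Away b →ₐ[k] κ :=
    { θ0 with
      commutes' := fun c => by
        have h1 : algebraMap k (Localization.Away b) c =
            algebraMap B (Localization.Away b) (algebraMap k B c) :=
          IsScalarTower.algebraMap_apply k B (Localization.Away b) c
        change θ0 (algebraMap k (Localization.Away b) c) = _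
        rw [h1, hθ0, θ.commutes] }
  obtain ⟨m, ⟨e⟩⟩ := Finite.exists_equiv_fin ι
  have hroot' : ∀ i : Fin m, ∀ r : κ,
      ¬ (((P (e.symm i)).map (algebraMap B (Localization.Away b))).map
        (θ1 : Localization.Away b →+* κ)).IsRoot r := by
    intro i r hr
    rw [Polynomial.map_map] at hr
    have h1 : (θ1 : Localization.Away b →+* κ).comp (algebraMap B (Localization.Away b)) =
        (θ : B →+* κ) := by
      ext x
      exact hθ0 x
    rw [h1] at hr
    let : Algebra B κ := (θ : B →+* κ).toAlgebra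
    have : FaithfulSMul B κ := (faithfulSMul_iff_algebraMap_injective B κ).mpr hinj
    have hfr : IsFractionRing B κ := by
      refine IsFractionRing.of_field B κ ?_
      intro z
      obtain ⟨x, y, hy, hz⟩ := hfrac z
      exact ⟨x, y, (eq_div_iff hy).mpr hz⟩
    let E : FractionRing B ≃ₐ[B] κ := FractionRing.algEquiv B κ
    apply hroot (e.symm i) (E.symm r)
    have h2 : E ((P (e.symm i)).eval₂ (algebraMap B (FractionRing B)) (E.symm r)) = 0 := by
      have h3 := Polynomial.hom_eval₂ (P (e.symm i)) (algebraMap B (FractionRing B))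
        (E : FractionRing B →+* κ) (E.symm r)
      have h4 : (E : FractionRing B →+* κ).comp (algebraMap B (FractionRing B)) =
          (θ : B →+* κ) := by
        ext x
        exact E.commutes x
      rw [h4] at h3
      have h5 : (E : FractionRing B →+* κ) (E.symm r) = r := E.apply_symm_apply r
      rw [h5] at h3
      rw [Polynomial.IsRoot, Polynomial.eval_map] at hr
      exact h3.trans hr
    exact (map_eq_zero_iff E E.injective).mp h2
  obtain ⟨φ, hφ⟩ := h (Localization.Away b) θ1 m
    (fun i => (P (e.symm i)).map (algebraMap B (Localization.Away b)))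
    (fun i => (hP _).map _) hroot'
  refine ⟨φ.comp (IsScalarTower.toAlgHom k B (Localization.Away b)), ?_, ?_⟩
  · have h1 : IsUnit (φ (algebraMap B (Localization.Away b) b)) :=
      (IsLocalization.Away.algebraMap_isUnit b).map φ
    exact h1.ne_zero
  · intro i x hx
    have h1 := hφ (e i) x
    rw [Equiv.symm_apply_apply, Polynomial.map_map] at h1
    exact h1 hx

theorem W_T2d {k K κ : Type} [Field k] [Field K] [Algebra k K] [Field κ] [Algebra k κ]
    (A A0 : Subalgebra k K) (hA : A.FG) (φ : A →ₐ[k] k) (ψ : A →ₐ[k] κ)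
    (hψ : ∀ b : A, ψ b = 0 ↔ b ∈ fibreIdeal A A0 φ)
    (hfrac : ∀ z : κ, ∃ x y : A, ψ y ≠ 0 ∧ z * ψ y = ψ x) (h : Hil k κ) :
    ∃ _ : IsDomain (A ⧸ fibreIdeal A A0 φ), HPRing k (A ⧸ fibreIdeal A A0 φ) := by
  have hft : Algebra.FiniteType k A := A.fg_iff_finiteType.mp hA
  let θ : (A ⧸ fibreIdeal A A0 φ) →ₐ[k] κ :=
    Ideal.Quotient.liftₐ (fibreIdeal A A0 φ) ψ (fun a ha => (hψ a).mpr ha)
  have hθ : ∀ a : A, θ (Ideal.Quotient.mk _ a) = ψ a := fun a => rfl
  have hinj : Function.Injective θ := by
    rw [injective_iff_map_eq_zero]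
    intro a ha
    obtain ⟨a, rfl⟩ := Ideal.Quotient.mk_surjective a
    rw [hθ, hψ] at ha
    exact Ideal.Quotient.eq_zero_iff_mem.mpr ha
  have hdom : IsDomain (A ⧸ fibreIdeal A A0 φ) := hinj.isDomain θ.toRingHom
  refine ⟨hdom, W_T2c k _ κ θ hinj ?_ h⟩
  intro z
  obtain ⟨x, y, hy, hz⟩ := hfrac z
  exact ⟨Ideal.Quotient.mk _ x, Ideal.Quotient.mk _ y, hy, hz⟩

end Pool.Agent.LibHP
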