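import Pool.Agent.LibW64T.T1
import Pool.Agent.LibW64T.Defs
import Pool.Agent.LibW64T.T2a
import Pool.Agent.LibW64T.T2b
import Pool.Agent.LibW64T.T2c
import Pool.Agent.LibW64T.T2e
import Pool.Agent.LibK3G.CV6

/-! # Row T2: from the scheme hypothesis to `FibresHP0`

Plan. `ηV := genericPoint V`, `ηT := genericPoint T`. `ηV ⤳ v` (`genericPoint_specializes`), so
`g ηV ⤳ g v = ηT`, so `g ηV = ηT` (`ηT ⤳ g ηV` and antisymmetry in the T0 space `T`).
1. `T0`: an affine open neighbourhood of `ηT` in `T` (`exists_isAffineOpen_mem_and_subset`), `V0`: an affine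
open neighbourhood of `ηV` in `W ⊓ g ⁻¹ᵁ T0` (`ηV ∈ W` as `W` is nonempty). `W_T2b` gives `A, β`.
`A0` := the image in `K` of `Γ(T, T0)` under `c ↦ β (g.appLE T0 V0 hle c)` as a `k`-subalgebra (the range of
an algebra homomorphism for the structures `kapU t T0`, `W_T2f`); it is finitely generated
(`kapU_finiteType t T0`).
2. `L := Subfield.closure A0`. `IsModel L A A0`: `fracL`: elements of the `Subfield.closure` of a subring are
fractions (`Subfield.mem_closure_iff`).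
3. `L` is contained in the image of the stalk at `v`: `W_T2a` (`c ∈ L`, `c * w = u`, `u, w ∈ A0`, `w ≠ 0`).
4. The fibres: given `φ : A →ₐ[k] k` let `φ' : Γ(V, V0) ⟶ CommRingCat.of k` be `φ` composed with `β`,
`s := Spec.map φ' ≫ hV0.fromSpec`; `W_T2e`: `s ≫ h = 𝟙` and the range of `s` is in `V0 ⊆ W`. `H s` :
`Z := pullback g (s ≫ g)` is integral and normal, `W_T1` with `IsPullback.of_hasPullback` gives
`ψ' : Γ(V, V0) →+* Z.functionField` (`hsurj` from `W_T2f`), `κ := Z.functionField` with the algebra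
structure `(toStalk q (genericPoint Z)).toAlgebra`, `q := pullback.snd g (s ≫ g)`; `Hil k κ` from
`hil_of_hilbertProp` (LibK3G/CV6.lean; `q` is locally of finite type, because `g` is: `g ≫ t = h`,
`LocallyOfFiniteType.of_comp`-like). `ψ := ψ' ∘ β⁻¹` is `k`-linear (`W_T2f` and the last property of
`W_T1`); its kernel is `fibreIdeal A A0 φ` (first property of `W_T1`, transport of the span along `β`);
`W_T2d`. -/

set_option autoImplicit false
open AlgebraicGeometry CategoryTheory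

namespace Pool.Agent.LibHP

open Pool.Agent.LibK3G (hil_of_hilbertProp Hil)

/-- The homomorphism from the functions on the base to the function field. -/
private noncomputable def t2F {k K : Type} [Field k] [Field K] [Algebra k K] {V T : Scheme.{0}}
    (h : V ⟶ Spec (CommRingCat.of k)) (t : T ⟶ Spec (CommRingCat.of k)) (g : V ⟶ T)
    (hg : g ≫ t = h) (T0 : T.Opens) (V0 : V.Opens) (hle : V0 ≤ g ⁻¹ᵁ T0) (A : Subalgebra k K)
    (β : Γ(V, V0) ≃+* A) (hβk : ∀ c : k, β (kapU h V0 c) = algebraMap k A c) :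
    letI : Algebra k Γ(T, T0) := (kapU t T0).toAlgebra
    Γ(T, T0) →ₐ[k] K :=
  letI : Algebra k Γ(T, T0) := (kapU t T0).toAlgebra
  { (A.val : A →+* K).comp ((β : Γ(V, V0) →+* A).comp (g.appLE T0 V0 hle).hom) with
    commutes' := fun c => by
      change ((β ((g.appLE T0 V0 hle).hom (kapU t T0 c)) : A) : K) = algebraMap k K c
      rw [W_T2f h t g hg T0 V0 hle c, hβk]
      rfl }

private theorem t2_base {k K : Type} [Field k] [Field K] [Algebra k K] {V T : Scheme.{0}}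
    (h : V ⟶ Spec (CommRingCat.of k)) (t : T ⟶ Spec (CommRingCat.of k)) [LocallyOfFiniteType t]
    (g : V ⟶ T) (hg : g ≫ t = h) (T0 : T.Opens) (hT0 : IsAffineOpen T0) (V0 : V.Opens)
    (hle : V0 ≤ g ⁻¹ᵁ T0) (A : Subalgebra k K)
    (β : Γ(V, V0) ≃+* A) (hβk : ∀ c : k, β (kapU h V0 c) = algebraMap k A c) :
    ∃ A0 : Subalgebra k K, A0.FG ∧
      ∀ c : K, c ∈ A0 ↔ ∃ a : Γ(T, T0), ((β ((g.appLE T0 V0 hle).hom a) : A) : K) = c := by
  letI : Algebra k Γ(T, T0) := (kapU t T0).toAlgebra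
  haveI : Algebra.FiniteType k Γ(T, T0) := kapU_finiteType t T0 hT0
  refine ⟨(t2F h t g hg T0 V0 hle A β hβk).range, ?_, ?_⟩
  · rw [← Algebra.map_top]
    exact (Algebra.FiniteType.out : (⊤ : Subalgebra k Γ(T, T0)).FG).map _
  · intro c
    rw [AlgHom.mem_range]
    rfl

/-- The subfield generated by a subalgebra. -/
private theorem t2_frac {k K : Type} [Field k] [Field K] [Algebra k K] (A0 : Subalgebra k K)
    (c : K) : c ∈ Subfield.closure (A0 : Set K) ↔
      ∃ u w : K, u ∈ A0 ∧ w ∈ A0 ∧ w ≠ 0 ∧ c * w = u := by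
  constructor
  · intro hc
    rw [Subfield.mem_closure_iff] at hc
    obtain ⟨y, hy, z, hz, hyz⟩ := hc
    have hcl : ∀ x ∈ Subring.closure (A0 : Set K), x ∈ A0 := by
      intro x hx
      have h1 : Subring.closure (A0 : Set K) ≤ A0.toSubring := Subring.closure_le.2 fun y hy => hy
      exact h1 hx
    by_cases hz0 : z = 0
    · refine ⟨0, 1, A0.zero_mem, A0.one_mem, one_ne_zero, ?_⟩
      rw [← hyz, hz0, div_zero, zero_mul]
    · refine ⟨y, z, hcl y hy, hcl z hz, hz0, ?_⟩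
      rw [← hyz, div_mul_cancel₀ _ hz0]
  · rintro ⟨u, w, hu, hw, hw0, hcw⟩
    have h1 : c = u / w := by rw [← hcw, mul_div_cancel_right₀ _ hw0]
    rw [h1]
    exact div_mem (Subfield.subset_closure hu) (Subfield.subset_closure hw)

/-- transport of the span of the functions vanishing at the point -/
private theorem t2_span {A B : Type} [CommRing A] [CommRing B] (β : B ≃+* A) (S : Set B)
    (S' : Set A) (h1 : ∀ b ∈ S, β b ∈ S') (h2 : ∀ a ∈ S', β.symm a ∈ S) (a : A) :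
    β.symm a ∈ Ideal.span S ↔ a ∈ Ideal.span S' := by
  have h3 : Ideal.span S ≤ (Ideal.span S').comap (β : B →+* A) :=
    Ideal.span_le.2 fun b hb => Ideal.subset_span (h1 b hb)
  have h4 : Ideal.span S' ≤ (Ideal.span S).comap (β.symm : A →+* B) :=
    Ideal.span_le.2 fun b hb => Ideal.subset_span (h2 b hb)
  constructor
  · intro h
    have h5 := h3 h
    rw [Ideal.mem_comap] at h5
    simpa using h5
  · intro h
    exact h4 h

/-- the fibres -/
private theorem t2_fibre {k : Type} [Field k] [CharZero k] {V T : Scheme.{0}}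
    (h : V ⟶ Spec (CommRingCat.of k)) [LocallyOfFiniteType h]
    (t : T ⟶ Spec (CommRingCat.of k)) (g : V ⟶ T) (hg : g ≫ t = h)
    (W : V.Opens) (K : Type) [Field K] [Algebra k K]
    (H : ∀ s : Spec (CommRingCat.of k) ⟶ V, s ≫ h = 𝟙 _ → Set.range s.base ⊆ W →
      IsIntegral (Limits.pullback g (s ≫ g)) ∧
      (∀ y : ↥(Limits.pullback g (s ≫ g)),
        IsIntegrallyClosed ((Limits.pullback g (s ≫ g)).presheaf.stalk y)) ∧
      HilbertProp (Limits.pullback.snd g (s ≫ g)))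
    (T0 : T.Opens) (hT0 : IsAffineOpen T0) (V0 : V.Opens) (hV0 : IsAffineOpen V0)
    (hVW : V0 ≤ W) (hle : V0 ≤ g ⁻¹ᵁ T0) (A : Subalgebra k K) (hA : A.FG)
    (β : Γ(V, V0) ≃+* A) (hβk : ∀ c : k, β (kapU h V0 c) = algebraMap k A c)
    (A0 : Subalgebra k K)
    (hA0 : ∀ c : K, c ∈ A0 ↔ ∃ a : Γ(T, T0), ((β ((g.appLE T0 V0 hle).hom a) : A) : K) = c)
    (φ : A →ₐ[k] k) :
    ∃ _ : IsDomain (A ⧸ fibreIdeal A A0 φ), HPRing k (A ⧸ fibreIdeal A A0 φ) := by
  obtain ⟨φ', hφ'⟩ : ∃ φ' : Γ(V, V0) ⟶ CommRingCat.of k, ∀ b, φ'.hom b = φ (β b) :=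
    ⟨CommRingCat.ofHom ((φ : A →+* k).comp (β : Γ(V, V0) →+* A)), fun b => rfl⟩
  have hφk : ∀ c : k, φ'.hom (kapU h V0 c) = c := by
    intro c
    rw [hφ', hβk, AlgHom.commutes]
    rfl
  obtain ⟨hs1, hs2⟩ := W_T2e h V0 hV0 φ' hφk
  obtain ⟨s, hs⟩ : ∃ s : Spec (CommRingCat.of k) ⟶ V, s = Spec.map φ' ≫ hV0.fromSpec :=
    ⟨_, rfl⟩
  rw [← hs] at hs1 hs2
  obtain ⟨hZ, hn, hHP⟩ := H s hs1 (hs2.trans hVW)
  have hsurj : Function.Surjective (g.appLE T0 V0 hle ≫ φ').hom := by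
    intro c
    refine ⟨kapU t T0 c, ?_⟩
    have h1 := W_T2f h t g hg T0 V0 hle c
    change φ'.hom ((g.appLE T0 V0 hle).hom (kapU t T0 c)) = c
    rw [h1, hφk]
  haveI : LocallyOfFiniteType (g ≫ t) := by rw [hg]; infer_instance
  haveI : LocallyOfFiniteType g := locallyOfFiniteType_of_comp g t
  obtain ⟨ψ', hψ1, hψ2, hψ3⟩ := W_T1 (Z := Limits.pullback g (s ≫ g)) g T0 hT0 V0 hV0 hle φ' hsurj s
    hs (Limits.pullback.fst g (s ≫ g)) (Limits.pullback.snd g (s ≫ g))
    (IsPullback.of_hasPullback g (s ≫ g))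
  letI : Algebra k (Limits.pullback g (s ≫ g)).functionField :=
    (toStalk (Limits.pullback.snd g (s ≫ g)) (genericPoint _)).toAlgebra
  have hHil : Hil k (Limits.pullback g (s ≫ g)).functionField :=
    hil_of_hilbertProp (Limits.pullback.snd g (s ≫ g)) (fun _ => rfl) hn hHP
  let ψ : A →ₐ[k] (Limits.pullback g (s ≫ g)).functionField :=
    { ψ'.comp (β.symm : A →+* Γ(V, V0)) with
      commutes' := fun c => by
        change ψ' (β.symm (algebraMap k A c)) =
          toStalk (Limits.pullback.snd g (s ≫ g)) (genericPoint _) c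
        rw [← hβk, RingEquiv.symm_apply_apply, ← W_T2f h t g hg T0 V0 hle c, hψ3,
          W_T2f h t g hg T0 V0 hle c, hφk] }
  have hψv : ∀ a : A, ψ a = ψ' (β.symm a) := fun a => rfl
  refine W_T2d A A0 hA φ ψ ?_ ?_ hHil
  · intro a
    rw [hψv, hψ1]
    refine t2_span β _ _ ?_ ?_ a
    · rintro b ⟨c, hc, hb⟩
      refine ⟨(hA0 _).2 ⟨c, by rw [hc]⟩, ?_⟩
      rw [← hφ']
      exact hb
    · rintro b ⟨hb, hb0⟩
      obtain ⟨c, hc⟩ := (hA0 _).1 hb
      have h1 : β ((g.appLE T0 V0 hle).hom c) = b := Subtype.ext hc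
      refine ⟨c, ?_, ?_⟩
      · rw [← h1, RingEquiv.symm_apply_apply]
      · rw [hφ', RingEquiv.apply_symm_apply]
        exact hb0
  · intro z
    obtain ⟨a, b, hb, hab⟩ := hψ2 z
    refine ⟨β a, β b, ?_, ?_⟩
    · rw [hψv, RingEquiv.symm_apply_apply]
      exact hb
    · rw [hψv, hψv, RingEquiv.symm_apply_apply, RingEquiv.symm_apply_apply]
      exact hab

theorem W_T2 {k : Type} [Field k] [CharZero k] {V T : Scheme.{0}} [IsIntegral V] [IsIntegral T]
    (h : V ⟶ Spec (CommRingCat.of k)) [LocallyOfFiniteType h]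
    (t : T ⟶ Spec (CommRingCat.of k)) [LocallyOfFiniteType t] (g : V ⟶ T) (hg : g ≫ t = h)
    (v : V) (hv : g.base v = genericPoint T) (W : V.Opens) (hW : (W : Set V).Nonempty)
    (K : Type) [Field K] [Algebra k K] (e : V.functionField →+* K) (he : Function.Bijective e)
    (hk : ∀ c : k, algebraMap k K c = e (toStalk h (genericPoint V) c))
    (H : ∀ s : Spec (CommRingCat.of k) ⟶ V, s ≫ h = 𝟙 _ → Set.range s.base ⊆ W →
      IsIntegral (Limits.pullback g (s ≫ g)) ∧
      (∀ y : ↥(Limits.pullback g (s ≫ g)),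
        IsIntegrallyClosed ((Limits.pullback g (s ≫ g)).presheaf.stalk y)) ∧
      HilbertProp (Limits.pullback.snd g (s ≫ g))) :
    ∃ L : Subfield K, (∀ c : k, algebraMap k K c ∈ L) ∧
      (∀ c ∈ L, ∃ a : V.presheaf.stalk v,
        e (algebraMap (V.presheaf.stalk v) V.functionField a) = c) ∧
      FibresHP0 k L := by
  classical
  have hgη : g.base (genericPoint V) = genericPoint T := by
    have h1 : genericPoint V ⤳ v := genericPoint_specializes v
    have h2 : g.base (genericPoint V) ⤳ g.base v := h1.map g.continuous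
    rw [hv] at h2
    exact (h2.antisymm (genericPoint_specializes _)).eq
  obtain ⟨T0, hT0, hηT, -⟩ := exists_isAffineOpen_mem_and_subset (X := T) (x := genericPoint T)
    (U := ⊤) trivial
  have hηW : genericPoint V ∈ W := by
    rw [← SetLike.mem_coe, (genericPoint_spec V).mem_open_set_iff W.isOpen]
    simpa using hW
  have hηV1 : genericPoint V ∈ W ⊓ g ⁻¹ᵁ T0 := by
    refine ⟨hηW, ?_⟩
    change g.base (genericPoint V) ∈ T0
    rw [hgη]
    exact hηT
  obtain ⟨V0, hV0, hηV0, hV0s⟩ := exists_isAffineOpen_mem_and_subset (X := V)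
    (x := genericPoint V) (U := W ⊓ g ⁻¹ᵁ T0) hηV1
  have hVW : V0 ≤ W := fun x hx => (hV0s hx).1
  have hle : V0 ≤ g ⁻¹ᵁ T0 := fun x hx => (hV0s hx).2
  obtain ⟨A, β, hA, hβ, hβk, hfrac⟩ := W_T2b h V0 hV0 hηV0 K e he hk
  obtain ⟨A0, hA0fg, hA0⟩ := t2_base h t g hg T0 hT0 V0 hle A β hβk
  have hA0A : A0 ≤ A := by
    intro c hc
    obtain ⟨a, ha⟩ := (hA0 c).1 hc
    rw [← ha]
    exact SetLike.coe_mem _
  refine ⟨Subfield.closure (A0 : Set K), ?_, ?_, A, A0, ⟨hA, hA0fg, hA0A, t2_frac A0, hfrac⟩, ?_⟩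
  · intro c
    exact Subfield.subset_closure (A0.algebraMap_mem c)
  · intro c hc
    obtain ⟨u, w, hu, hw, hw0, hcw⟩ := (t2_frac A0 c).1 hc
    obtain ⟨a, ha⟩ := (hA0 u).1 hu
    obtain ⟨b, hb⟩ := (hA0 w).1 hw
    rw [hβ] at ha hb
    obtain ⟨x, hx⟩ := W_T2a g v hv T0 hηT V0 hηV0 hle a b (by
      intro h0
      apply hw0
      rw [← hb, h0, map_zero])
    refine ⟨x, ?_⟩
    apply mul_right_cancel₀ hw0
    rw [hcw, ← hb, ← ha, ← map_mul]
    exact congrArg e hx
  · intro φ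
    exact t2_fibre h t g hg W K H T0 hT0 V0 hV0 hVW hle A hA β hβk A0 hA0 φ

end Pool.Agent.LibHP
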