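import Pool.Agent.LibW64T.SDefs
import Pool.Agent.LibW64T.T2
import Pool.Agent.LibW64T.T3
import Pool.Agent.LibW64T.U3

/-! # Row T4: summary for a fibration whose fibres have the Hilbert property

SHORT/MEDIUM. Plan. Unpack `FibreHP`, `W_T3` for `j`, `W_T2` with `h := j ≫ f` (locally of finite type, as `f`
is and `j` is an open immersion), `K := X.functionField`, `e` from `W_T3`. `ClosedSub L` by `W_U3`.
`∃ c, c ∉ L`: otherwise the `algebraMap` from the stalk at `x` to the function field is surjective, so
(it is injective) the stalk is a field, of Krull dimension `0` (`ringKrullDim_eq_zero_of_isField`), not `1`. -/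

set_option autoImplicit false
open AlgebraicGeometry CategoryTheory

namespace Pool.Agent.LibHP

theorem W_T4 {k : Type} [Field k] [CharZero k] {X : Scheme.{0}} [IsIntegral X]
    (f : X ⟶ Spec (CommRingCat.of k)) [LocallyOfFiniteType f] [Algebra k X.functionField]
    (hk : ∀ c : k, algebraMap k X.functionField c = toStalk f (genericPoint X) c)
    (hdense : DensePts k X.functionField)
    (x : X) (hx : ringKrullDim (X.presheaf.stalk x) = 1) (h : FibreHP f x) :
    ∃ L : Subfield X.functionField, (∀ c : k, algebraMap k X.functionField c ∈ L) ∧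
      (∀ c ∈ L, ∃ a : X.presheaf.stalk x,
        algebraMap (X.presheaf.stalk x) X.functionField a = c) ∧
      FibresHP k L := by
  obtain ⟨V, T, _, _, j, g, t, v, W, hj, ht, hgt, hjv, hgv, hW, H⟩ := h
  haveI := hj
  haveI := ht
  obtain ⟨e, hebij, he1, he2⟩ := W_T3 f j hj
  obtain ⟨L, hL1, hL2, A, A0, hM, hF⟩ := W_T2 (j ≫ f) t g hgt v hgv W hW X.functionField e hebij
    (fun c => by rw [hk, he1]) H
  have hst : ∀ c ∈ L, ∃ a : X.presheaf.stalk x,
      algebraMap (X.presheaf.stalk x) X.functionField a = c := by
    intro c hc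
    obtain ⟨a, ha⟩ := hL2 c hc
    obtain ⟨b, hb⟩ := he2 v a
    subst hjv
    exact ⟨b, by rw [← hb, ha]⟩
  haveI : CharZero X.functionField :=
    charZero_of_injective_algebraMap (algebraMap k X.functionField).injective
  refine ⟨L, hL1, hst, W_U3 k X.functionField L A A0 hM hdense fun φ => (hF φ).choose, ?_,
    A, A0, hM.fg, hM.fg0, hM.le, hM.fracL, hM.fracK, hF⟩
  by_contra hcon
  push Not at hcon
  have hbij : Function.Bijective (algebraMap (X.presheaf.stalk x) X.functionField) :=
    ⟨IsFractionRing.injective _ _, fun c => hst c (hcon c)⟩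
  have hfield : IsField (X.presheaf.stalk x) :=
    (RingEquiv.ofBijective _ hbij).toMulEquiv.isField (Field.toIsField _)
  have h0 := ringKrullDim_eq_zero_of_isField hfield
  rw [hx] at h0
  exact one_ne_zero h0

end Pool.Agent.LibHP
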