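import Pool.Agent.LibW64T.T4
import Pool.Agent.LibW64.F7
import Pool.Agent.LibHPF.G12

/-! # Row T5: the Hilbert property for webs of fibrations: final statement

SHORT. Plan. `main_web_all` (LibW64/F7.lean); for the alternative `FibreHP f x` use `W_T4` with
`letI : Algebra k X.functionField := (toStalk f (genericPoint X)).toAlgebra` (`hk := fun _ => rfl`), `hdense`
from `densePts_functionField f (fun _ => rfl) hdense` (LibHPF/G12.lean), characteristic zero of `k`. -/

set_option autoImplicit false
open AlgebraicGeometry CategoryTheory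

namespace Pool.Agent.LibHP

theorem main_web_scheme (k : Type) [Field k] [NumberField k] {X : Scheme.{0}}
    (f : X ⟶ Spec (CommRingCat.of k)) [IsIntegral X] [Smooth f] [IsSeparated f] [QuasiCompact f]
    (hsc : GeomSimplyConnected f)
    (hdense : Dense {x : X | ∃ s : Spec (CommRingCat.of k) ⟶ X, s ≫ f = 𝟙 _ ∧
      x ∈ Set.range s.base})
    (H : ∀ x : X, ringKrullDim (X.presheaf.stalk x) = 1 →
      FibreHP f x ∨
      (∃ L : Subfield X.functionField, (∀ c : k, toStalk f (genericPoint X) c ∈ L) ∧
        (∀ c ∈ L, ∃ a : X.presheaf.stalk x,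
          algebraMap (X.presheaf.stalk x) X.functionField a = c) ∧
        FibreDominated L) ∨
      ∀ l : ℕ, l.Prime → ∃ m : ℕ, ¬ l ∣ m ∧ CurveMeets f x m) :
    HilbertProp f := by
  refine main_web_all k f hsc hdense fun x hx => ?_
  rcases H x hx with h | ⟨L, h1, h2, h3⟩ | h
  · letI : Algebra k X.functionField := (toStalk f (genericPoint X)).toAlgebra
    obtain ⟨L, h1, h2, h3⟩ := W_T4 f (fun _ => rfl)
      (densePts_functionField f (fun _ => rfl) hdense) x hx h
    exact Or.inl ⟨L, h1, h2, Or.inr h3⟩
  · exact Or.inl ⟨L, h1, h2, Or.inl h3⟩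
  · exact Or.inr h

end Pool.Agent.LibHP
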