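import Pool.Agent.LibW64T.Defs

/-! # Row U1: presentation of `K` over `L` (`L` not assumed to be algebraically closed in `K`)

Compare row F1 of board W64 (LibW64/F1.lean).

Plan. `A = k[b_1, ..., b_n]`. All in `K`, which is generated as a field by `A` (`fracK`).
1. `K` is generated as a field over `L` by the `b_i`; choose among the `b_i` a transcendence basis
`y_1, ..., y_r` of `K` over `L` (`exists_isTranscendenceBasis_subset`-like: `IsTranscendenceBasis` with
`s := Set.range b`, `K` algebraic over `L(s)`), so `y` is algebraically independent over `L`, hence over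
`A0`. (`r = 0` is possible.)
2. `E := IntermediateField.adjoin L (Set.range y)`: `K / E` is algebraic and finitely generated, so
finite, and separable: primitive element `w0` (`Field.exists_primitive_element`). Every element of `E`
is `q(y) / e(y)` with `q, e : MvPolynomial (Fin r) A0`, `e(y) ≠ 0` (the fractions of this form are a
subfield containing `L`, by `fracL`, and `y`).
3. The subring `E[A]` of `K` is a field, because it is algebraic over `E`
(`Subalgebra.isField_of_algebraic`), so it is `K` (`fracK`): `w0 = ∑ q_j β_j` with `q_j ∈ E`, `β_j ∈ A`;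
multiplying by a common denominator, `w1 := e(y) w0 ∈ A`, again primitive.
4. The minimal polynomial of `w1` over `E` is `X ^ N + ∑ (g_i(y) / h(y)) X ^ i` with
`g_i, h : MvPolynomial (Fin r) A0`; `w := h(y) w1 ∈ A` is primitive with minimal polynomial
`X ^ N + ∑ g_i(y) h(y) ^ (N - 1 - i) X ^ i` (`Polynomial.scaleRoots`): coefficients in the image of
`MvPolynomial (Fin r) A0`: this is `m`.
5. Linear independence: `p` of degree `< N` with `evYW .. p = 0`: the powers `w ^ i`, `i < N`, are linearly
independent over `E`, so all coefficients of `p` vanish at `y`, so they are zero by the algebraic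
independence over `A0`.
6. Every `b ∈ A` is `∑ i < N, x_i w ^ i` with `x_i ∈ E`; take `c` := a product of denominators for the
generators `b_1, ..., b_n`; the set of the `b` with the last property is a subalgebra (`k ⊆ A0`;
`Algebra.adjoin_induction`). -/

set_option autoImplicit false
open Polynomial
open scoped IntermediateField

namespace Pool.Agent.LibHP

/-- denominators of the elements of the algebra generated over the fraction field -/
private theorem U1_den {R F K : Type} [CommRing R] [IsDomain R] [Field F] [Algebra R F]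
    [IsFractionRing R F] [Field K] [Algebra R K] [Algebra F K] [IsScalarTower R F K] (S : Set K)
    (x : K) (hx : x ∈ Algebra.adjoin F S) :
    ∃ d : R, d ≠ 0 ∧ algebraMap R K d * x ∈ Algebra.adjoin R S := by
  induction hx using Algebra.adjoin_induction with
  | mem x hx =>
    exact ⟨1, one_ne_zero, by rw [map_one, one_mul]; exact Algebra.subset_adjoin hx⟩
  | algebraMap f =>
    obtain ⟨a, b, hb, rfl⟩ := IsFractionRing.div_surjective (A := R) f
    have hb0 : b ≠ 0 := nonZeroDivisors.ne_zero hb
    refine ⟨b, hb0, ?_⟩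
    have h1 : algebraMap R K b * algebraMap F K (algebraMap R F a / algebraMap R F b) =
        algebraMap R K a := by
      have h2 : algebraMap R F b ≠ 0 := IsFractionRing.to_map_ne_zero_of_mem_nonZeroDivisors hb
      rw [IsScalarTower.algebraMap_apply R F K b, IsScalarTower.algebraMap_apply R F K a,
        ← map_mul, mul_div_cancel₀ _ h2]
    rw [h1]
    exact Subalgebra.algebraMap_mem _ a
  | add x y _ _ hx hy =>
    obtain ⟨a, ha, hax⟩ := hx
    obtain ⟨b, hb, hby⟩ := hy
    refine ⟨a * b, mul_ne_zero ha hb, ?_⟩
    have h1 : algebraMap R K (a * b) * (x + y) =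
        algebraMap R K b * (algebraMap R K a * x) + algebraMap R K a * (algebraMap R K b * y) := by
      rw [map_mul]; ring
    rw [h1]
    exact add_mem (mul_mem (Subalgebra.algebraMap_mem _ b) hax)
      (mul_mem (Subalgebra.algebraMap_mem _ a) hby)
  | mul x y _ _ hx hy =>
    obtain ⟨a, ha, hax⟩ := hx
    obtain ⟨b, hb, hby⟩ := hy
    refine ⟨a * b, mul_ne_zero ha hb, ?_⟩
    have h1 : algebraMap R K (a * b) * (x * y) =
        (algebraMap R K a * x) * (algebraMap R K b * y) := by
      rw [map_mul]; ring
    rw [h1]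
    exact mul_mem hax hby

open scoped Classical in
private theorem U1_gen {R K : Type} [CommRing R] [IsDomain R] [Field K] [CharZero K] [Algebra R K]
    (hinj : Function.Injective (algebraMap R K)) (halg : Algebra.IsAlgebraic R K)
    (S : Set K) (hS : S.Finite)
    (hfr : ∀ c : K, ∃ u w : K, u ∈ Algebra.adjoin R S ∧ w ∈ Algebra.adjoin R S ∧ w ≠ 0 ∧
      c * w = u) :
    ∃ (w : K) (m : R[X]) (c : R), w ∈ Algebra.adjoin R S ∧ m.Monic ∧ c ≠ 0 ∧ aeval w m = 0 ∧
      (∀ p : R[X], p.natDegree < m.natDegree → aeval w p = 0 → p = 0) ∧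
      ∀ b ∈ Algebra.adjoin R S, ∃ (n : ℕ) (p : R[X]), b * (algebraMap R K c) ^ n = aeval w p := by
  have hfs : FaithfulSMul R K := (faithfulSMul_iff_algebraMap_injective _ _).2 hinj
  let F := FractionRing R
  let _ : Algebra F K := FractionRing.liftAlgebra R K
  have : IsScalarTower R F K := FractionRing.isScalarTower_liftAlgebra R K
  have halgF : Algebra.IsAlgebraic F K := Algebra.IsAlgebraic.extendScalars (IsFractionRing.injective R F)
  have : CharZero F := (algebraMap F K).charZero
  -- the algebra generated over `F`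
  have htop : Algebra.adjoin F S = ⊤ := by
    rw [eq_top_iff]
    intro z _
    obtain ⟨u, w, hu, hw, hw0, h⟩ := hfr z
    have hle : ∀ t ∈ Algebra.adjoin R S, t ∈ Algebra.adjoin F S := by
      intro t ht
      induction ht using Algebra.adjoin_induction with
      | mem x hx => exact Algebra.subset_adjoin hx
      | algebraMap r =>
        rw [IsScalarTower.algebraMap_apply R F K]
        exact Subalgebra.algebraMap_mem _ _
      | add x y _ _ hx hy => exact add_mem hx hy
      | mul x y _ _ hx hy => exact mul_mem hx hy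
    have hinv : (w⁻¹ : K) ∈ Algebra.adjoin F S :=
      Subalgebra.inv_mem_of_algebraic (Algebra.adjoin F S) (x := ⟨w, hle w hw⟩)
        (Algebra.IsAlgebraic.isAlgebraic w)
    have h1 : z = u * w⁻¹ := by
      rw [← h, mul_assoc, mul_inv_cancel₀ hw0, mul_one]
    rw [h1]
    exact mul_mem (hle u hu) hinv
  have hft : Algebra.FiniteType F K := ⟨⟨hS.toFinset, by rw [hS.coe_toFinset, htop]⟩⟩
  have hint : Algebra.IsIntegral F K := halgF.isIntegral
  have hfin : FiniteDimensional F K := Algebra.IsIntegral.finite
  obtain ⟨w0, hw0⟩ := Field.exists_primitive_element F K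
  obtain ⟨d, hd, hdw⟩ := U1_den (R := R) (F := F) S w0 (by rw [htop]; trivial)
  -- primitive elements
  have hprim : ∀ (t : K) (a : R), a ≠ 0 → F⟮t⟯ = ⊤ → F⟮algebraMap R K a * t⟯ = ⊤ := by
    intro t a ha ht
    rw [eq_top_iff, ← ht, IntermediateField.adjoin_simple_le_iff]
    have h1 : t = algebraMap F K (algebraMap R F a)⁻¹ * (algebraMap R K a * t) := by
      rw [map_inv₀, ← IsScalarTower.algebraMap_apply R F K, ← mul_assoc, inv_mul_cancel₀, one_mul]
      exact fun h => ha (hinj (by rw [h, map_zero]))
    have h2 := mul_mem (IntermediateField.algebraMap_mem (F⟮algebraMap R K a * t⟯)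
      (algebraMap R F a)⁻¹) (IntermediateField.mem_adjoin_simple_self F (algebraMap R K a * t))
    rwa [← h1] at h2
  set w1 : K := algebraMap R K d * w0 with hw1
  have hw1p : F⟮w1⟯ = ⊤ := hprim w0 d hd hw0
  obtain ⟨b, hb, hbq⟩ := IsLocalization.integerNormalization_spec (nonZeroDivisors R)
    (minpoly F w1)
  set q : R[X] := IsLocalization.integerNormalization (nonZeroDivisors R) (minpoly F w1) with hq
  have hintw : ∀ t : K, IsIntegral F t := fun t => Algebra.IsIntegral.isIntegral t
  have hq0 : q ≠ 0 := by
    rw [hq, Ne, IsFractionRing.integerNormalization_eq_zero_iff]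
    exact minpoly.ne_zero (hintw w1)
  have hqw : aeval w1 q = 0 := by
    apply IsLocalization.integerNormalization_aeval_eq_zero
    exact minpoly.aeval F w1
  have hqdeg : q.natDegree = (minpoly F w1).natDegree := by
    have h1 : (q.map (algebraMap R F)).natDegree = q.natDegree :=
      natDegree_map_eq_of_injective (IsFractionRing.injective R F) q
    rw [← h1, hbq, natDegree_smul]
    exact nonZeroDivisors.ne_zero hb
  set w : K := algebraMap R K q.leadingCoeff * w1 with hw
  have hwp : F⟮w⟯ = ⊤ := hprim w1 _ (leadingCoeff_ne_zero.2 hq0) hw1p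
  have hfr' : ∀ t : K, F⟮t⟯ = ⊤ → (minpoly F t).natDegree = Module.finrank F K := by
    intro t ht
    rw [← IntermediateField.adjoin.finrank (hintw t), ht, IntermediateField.finrank_top']
  have hmw : aeval w (integralNormalization q) = 0 :=
    integralNormalization_aeval_eq_zero hqw fun x hx => hinj (by rw [hx, map_zero])
  have hmdeg : (integralNormalization q).natDegree = (minpoly F w).natDegree := by
    rw [natDegree_integralNormalization, hqdeg, hfr' w1 hw1p, hfr' w hwp]
  -- denominators
  have hden : ∀ z : K, ∃ (e : R) (p : R[X]), e ≠ 0 ∧ algebraMap R K e * z = aeval w p := by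
    intro z
    have hz : z ∈ Algebra.adjoin F {w} := by
      have h1 : z ∈ F⟮w⟯ := by rw [hwp]; trivial
      rw [← IntermediateField.mem_toSubalgebra,
        IntermediateField.adjoin_simple_toSubalgebra_of_isAlgebraic (hintw w).isAlgebraic] at h1
      exact h1
    obtain ⟨e, he, hez⟩ := U1_den (R := R) (F := F) {w} z hz
    rw [Algebra.adjoin_singleton_eq_range_aeval] at hez
    obtain ⟨p, hp⟩ := hez
    exact ⟨e, p, he, hp.symm⟩
  choose e p he hp using hden
  let c : R := ∏ s ∈ hS.toFinset, e s
  refine ⟨w, integralNormalization q, c, ?_, monic_integralNormalization hq0, ?_, hmw, ?_, ?_⟩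
  · exact mul_mem (Subalgebra.algebraMap_mem _ _) hdw
  · exact Finset.prod_ne_zero_iff.2 fun s _ => he s
  · intro g hg hgw
    by_contra hg0
    have h1 : aeval w (g.map (algebraMap R F)) = 0 := by rwa [aeval_map_algebraMap]
    have h2 : g.map (algebraMap R F) ≠ 0 :=
      (Polynomial.map_ne_zero_iff (IsFractionRing.injective R F)).2 hg0
    have h4 := minpoly.degree_le_of_ne_zero F w h2 h1
    have h5 := natDegree_le_natDegree h4
    rw [natDegree_map_eq_of_injective (IsFractionRing.injective R F)] at h5
    omega
  · intro z hz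
    induction hz using Algebra.adjoin_induction with
    | mem x hx =>
      have hx' : x ∈ hS.toFinset := hS.mem_toFinset.2 hx
      refine ⟨1, C (∏ s ∈ hS.toFinset.erase x, e s) * p x, ?_⟩
      have h1 : c = e x * ∏ s ∈ hS.toFinset.erase x, e s :=
        (Finset.mul_prod_erase _ _ hx').symm
      rw [pow_one, map_mul, aeval_C, ← hp x, h1, map_mul]
      ring
    | algebraMap r =>
      exact ⟨0, C r, by rw [pow_zero, mul_one, aeval_C]⟩
    | add x y _ _ hx hy =>
      obtain ⟨n, g, hn⟩ := hx
      obtain ⟨m, g', hm⟩ := hy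
      refine ⟨n + m, g * C c ^ m + g' * C c ^ n, ?_⟩
      simp only [map_add, map_mul, map_pow, aeval_C]
      rw [← hn, ← hm, pow_add]
      ring
    | mul x y _ _ hx hy =>
      obtain ⟨n, g, hn⟩ := hx
      obtain ⟨m, g', hm⟩ := hy
      refine ⟨n + m, g * g', ?_⟩
      rw [map_mul, ← hn, ← hm, pow_add]
      ring

theorem W_U1 {k K : Type} [Field k] [Field K] [CharZero K] [Algebra k K] (L : Subfield K)
    (A A0 : Subalgebra k K) (hM : IsModel L A A0) :
    ∃ (r : ℕ) (y : Fin r → A) (w : A) (m : (MvPolynomial (Fin r) A0)[X])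
      (c : MvPolynomial (Fin r) A0), m.Monic ∧ c ≠ 0 ∧
      evYW (Subalgebra.inclusion hM.le : A0 →+* A) y w m = 0 ∧
      (∀ p : (MvPolynomial (Fin r) A0)[X], p.natDegree < m.natDegree →
        evYW (Subalgebra.inclusion hM.le : A0 →+* A) y w p = 0 → p = 0) ∧
      ∀ b : A, ∃ (n : ℕ) (p : (MvPolynomial (Fin r) A0)[X]),
        b * evYW (Subalgebra.inclusion hM.le : A0 →+* A) y w (C c) ^ n =
          evYW (Subalgebra.inclusion hM.le : A0 →+* A) y w p := by
  classical
  obtain ⟨S, hS⟩ := hM.fg
  have hSA : ∀ s ∈ S, s ∈ A := by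
    intro s hs
    rw [← hS]
    exact Algebra.subset_adjoin hs
  have hA : ∀ a ∈ A, a ∈ Algebra.adjoin A0 (S : Set K) := by
    intro a ha
    rw [← hS] at ha
    induction ha using Algebra.adjoin_induction with
    | mem x hx => exact Algebra.subset_adjoin hx
    | algebraMap r =>
      exact Subalgebra.algebraMap_mem (Algebra.adjoin A0 (S : Set K)) (algebraMap k A0 r)
    | add x y _ _ hx hy => exact add_mem hx hy
    | mul x y _ _ hx hy => exact mul_mem hx hy
  have halg : Algebra.IsAlgebraic (Algebra.adjoin A0 (S : Set K)) K := by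
    constructor
    intro z
    obtain ⟨u, w, hu, hw, hw0, h⟩ := hM.fracK z
    refine ⟨C ⟨w, hA w hw⟩ * X - C ⟨u, hA u hu⟩, ?_, ?_⟩
    · intro h0
      have h1 := congrArg (fun P => Polynomial.coeff P 1) h0
      simp only [coeff_sub, coeff_C_mul, coeff_X_one, mul_one, coeff_C_succ, sub_zero,
        coeff_zero] at h1
      exact hw0 (congrArg Subtype.val h1)
    · rw [map_sub, map_mul, aeval_C, aeval_C, aeval_X]
      change w * z - u = 0
      rw [← h]
      ring
  have hfs : FaithfulSMul A0 K :=
    (faithfulSMul_iff_algebraMap_injective _ _).2 Subtype.val_injective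
  obtain ⟨t, htS, ht⟩ := exists_isTranscendenceBasis_subset (R := A0) (S : Set K)
  have htf : t.Finite := S.finite_toSet.subset htS
  have := htf.to_subtype
  obtain ⟨r, ⟨e⟩⟩ := Finite.exists_equiv_fin t
  let y : Fin r → K := fun i => (e.symm i : K)
  have hy : IsTranscendenceBasis A0 y := (isTranscendenceBasis_equiv e.symm).2 ht
  have hyA : ∀ i, y i ∈ A := fun i => hSA _ (htS (e.symm i).2)
  let _ : Algebra (MvPolynomial (Fin r) A0) K :=
    ((MvPolynomial.aeval y : MvPolynomial (Fin r) A0 →ₐ[A0] K) :
      MvPolynomial (Fin r) A0 →+* K).toAlgebra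
  have hmap : ∀ q : MvPolynomial (Fin r) A0, algebraMap (MvPolynomial (Fin r) A0) K q =
      MvPolynomial.aeval y q := fun q => rfl
  have hinj : Function.Injective (algebraMap (MvPolynomial (Fin r) A0) K) := hy.1
  have halgR : Algebra.IsAlgebraic (MvPolynomial (Fin r) A0) K := by
    constructor
    intro z
    obtain ⟨p, hp0, hpz⟩ := hy.isAlgebraic.isAlgebraic z
    refine ⟨p.map (hy.1.aevalEquiv.symm : Algebra.adjoin A0 (Set.range y) →+*
      MvPolynomial (Fin r) A0), ?_, ?_⟩
    · exact (Polynomial.map_ne_zero_iff hy.1.aevalEquiv.symm.injective).2 hp0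
    · rw [aeval_def, eval₂_map]
      rw [aeval_def] at hpz
      rw [← hpz]
      congr 1
      ext q
      change MvPolynomial.aeval y (hy.1.aevalEquiv.symm q) = (q : K)
      rw [← hy.1.algebraMap_aevalEquiv, AlgEquiv.apply_symm_apply]
      rfl
  have hAR : ∀ a ∈ A, a ∈ Algebra.adjoin (MvPolynomial (Fin r) A0) (S : Set K) := by
    intro a ha
    rw [← hS] at ha
    induction ha using Algebra.adjoin_induction with
    | mem x hx => exact Algebra.subset_adjoin hx
    | algebraMap r' =>
      have h1 := Subalgebra.algebraMap_mem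
        (Algebra.adjoin (MvPolynomial (Fin r) A0) (S : Set K)) (MvPolynomial.C (algebraMap k A0 r'))
      rw [hmap, MvPolynomial.aeval_C] at h1
      exact h1
    | add x y _ _ hx hy => exact add_mem hx hy
    | mul x y _ _ hx hy => exact mul_mem hx hy
  have hRA0 : ∀ q : MvPolynomial (Fin r) A0, MvPolynomial.aeval y q ∈ A := by
    intro q
    induction q using MvPolynomial.induction_on with
    | C a =>
      rw [MvPolynomial.aeval_C]
      exact hM.le a.2
    | add p q hp hq =>
      rw [map_add]
      exact add_mem hp hq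
    | mul_X p i hp =>
      rw [map_mul, MvPolynomial.aeval_X]
      exact mul_mem hp (hyA i)
  have hRA : ∀ a ∈ Algebra.adjoin (MvPolynomial (Fin r) A0) (S : Set K), a ∈ A := by
    intro a ha
    induction ha using Algebra.adjoin_induction with
    | mem x hx => exact hSA x hx
    | algebraMap q => exact hRA0 q
    | add x y _ _ hx hy => exact add_mem hx hy
    | mul x y _ _ hx hy => exact mul_mem hx hy
  obtain ⟨w, m, c, hw, hm, hc, hmw, hmin, hgen⟩ := U1_gen hinj halgR (S : Set K) S.finite_toSet
    (fun z => by
      obtain ⟨u, w, hu, hw, h⟩ := hM.fracK z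
      exact ⟨u, w, hAR u hu, hAR w hw, h⟩)
  let y' : Fin r → A := fun i => ⟨y i, hyA i⟩
  let w' : A := ⟨w, hRA w hw⟩
  have key : ∀ p : (MvPolynomial (Fin r) A0)[X],
      ((evYW (Subalgebra.inclusion hM.le : A0 →+* A) y' w' p : A) : K) = aeval w p := by
    have h1 : (A.val : A →+* K).comp (evYW (Subalgebra.inclusion hM.le : A0 →+* A) y' w') =
        (aeval w : (MvPolynomial (Fin r) A0)[X] →ₐ[MvPolynomial (Fin r) A0] K).toRingHom := by
      apply Polynomial.ringHom_ext
      · intro q
        change ((evYW (Subalgebra.inclusion hM.le : A0 →+* A) y' w' (C q) : A) : K) = aeval w (C q)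
        rw [aeval_C, hmap]
        have h2 : evYW (Subalgebra.inclusion hM.le : A0 →+* A) y' w' (C q) =
            MvPolynomial.eval₂Hom (Subalgebra.inclusion hM.le : A0 →+* A) y' q := by
          unfold evYW
          rw [coe_eval₂RingHom, eval₂_C]
        rw [h2]
        have h3 : (A.val : A →+* K).comp
            (MvPolynomial.eval₂Hom (Subalgebra.inclusion hM.le : A0 →+* A) y') =
            ((MvPolynomial.aeval y : MvPolynomial (Fin r) A0 →ₐ[A0] K) :
              MvPolynomial (Fin r) A0 →+* K) := by
          apply MvPolynomial.ringHom_ext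
          · intro a
            rw [RingHom.comp_apply, MvPolynomial.eval₂Hom_C]
            exact (MvPolynomial.aeval_C y a).symm
          · intro i
            rw [RingHom.comp_apply, MvPolynomial.eval₂Hom_X']
            exact (MvPolynomial.aeval_X y i).symm
        exact congrArg (fun φ => φ q) h3
      · change ((evYW (Subalgebra.inclusion hM.le : A0 →+* A) y' w' X : A) : K) = aeval w X
        rw [aeval_X]
        unfold evYW
        rw [coe_eval₂RingHom, eval₂_X]
    intro p
    exact congrArg (fun φ => φ p) h1
  refine ⟨r, y', w', m, c, hm, hc, ?_, ?_, ?_⟩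
  · apply Subtype.ext
    rw [key, hmw]
    rfl
  · intro p hp h0
    apply hmin p hp
    rw [← key, h0]
    rfl
  · intro b
    obtain ⟨n, p, hp⟩ := hgen b (hAR b b.2)
    refine ⟨n, p, ?_⟩
    apply Subtype.ext
    rw [key, ← hp]
    change (b : K) * ((evYW (Subalgebra.inclusion hM.le : A0 →+* A) y' w' (C c) : A) : K) ^ n = _
    rw [key, aeval_C]


end Pool.Agent.LibHP
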